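import Pool.Agent.W994.AR.FB
import Pool.Agent.H593R3.FBC.Defs
import Pool.Agent.H671R2.PolyAuto

/-!
# Constraint satisfaction problems of relational structures, and the polynomial-time map
-/

set_option autoImplicit false

namespace Pool.Agent.E8helper92.BP

open Function Pool.Agent.W994.AR Pool.Agent.NPC
open Pool.Agent.H593R3.FBC (Inst IsInst CSP Rels)

/-- the relations of a structure as relations between lists -/
def rels {n : ℕ} {ar : Fin n → ℕ} {A : Type} (𝔸 : Str (Fin n) ar A) : Rels A :=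
  fun i l => ∃ (j : Fin n) (v : Fin (ar j) → A), j.1 = i ∧ v ∈ 𝔸 j ∧ List.ofFn v = l

/-- the constraint satisfaction problem of a structure -/
def CSPOf {n : ℕ} {ar : Fin n → ℕ} {A : Type} (𝔸 : Str (Fin n) ar A) (I : Inst) : Prop :=
  CSP (List.ofFn ar) (rels 𝔸) I

theorem cspOf_iff {n : ℕ} {ar : Fin n → ℕ} {A : Type} [Nonempty A] (𝔸 : Str (Fin n) ar A)
    (I : Inst) : CSPOf 𝔸 I ↔ IsInst (List.ofFn ar) I ∧ ∃ h : ℕ → A, ∀ (i : Fin n)
      (v : Fin (ar i) → ℕ), (i.1, List.ofFn v) ∈ I.2 → (fun j => h (v j)) ∈ 𝔸 i := by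
  classical
  unfold CSPOf CSP
  refine and_congr_right fun hI => ?_
  constructor
  · rintro ⟨h, hh⟩
    refine ⟨fun x => if hx : x < I.1.length then h ⟨x, hx⟩ else Classical.arbitrary A, ?_⟩
    intro i v hv
    have hlt : ∀ j, v j < I.1.length := by
      intro j
      apply (hI _ hv).2
      simp only [List.mem_ofFn]
      exact ⟨j, rfl⟩
    obtain ⟨i', w, hi', hw, hwl⟩ := hh i.1 (List.ofFn (fun j => (⟨v j, hlt j⟩ : Fin I.1.length)))
      (by rw [List.map_ofFn]; exact hv)
    obtain rfl : i' = i := Fin.ext hi'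
    rw [List.map_ofFn] at hwl
    have h1 := List.ofFn_injective hwl
    have h2 : (fun j => if hx : v j < I.1.length then h ⟨v j, hx⟩ else Classical.arbitrary A) =
        w := by
      rw [h1]
      funext j
      rw [dif_pos (hlt j)]
      rfl
    rw [h2]
    exact hw
  · rintro ⟨h, hh⟩
    refine ⟨fun x => h x.1, ?_⟩
    intro i l hl
    have h1 := (hI _ hl).1
    simp only [List.length_map] at h1
    rw [List.getElem?_ofFn] at h1
    split_ifs at h1 with hi
    simp only [Option.some.injEq] at h1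
    have h2 : List.ofFn (fun j : Fin (ar ⟨i, hi⟩) => (l.get (Fin.cast h1 j)).1) = l.map Fin.val := by
      apply List.ext_getElem
      · simp [h1]
      · intro k hk1 hk2
        simp
    refine ⟨⟨i, hi⟩, fun j => h (l.get (Fin.cast h1 j)).1, rfl, hh ⟨i, hi⟩ _ (by rw [h2]; exact hl), ?_⟩
    apply List.ext_getElem
    · simp [h1]
    · intro k hk1 hk2
      simp

/-- the instance is well formed and uses no symbol of the list `bad` -/
def okI (τ bad : List ℕ) (I : Inst) : Bool :=
  I.2.all (fun p => decide (τ[p.1]? = some p.2.length) &&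
    (p.2.all (fun a => decide (a < I.1.length)) && !decide (p.1 ∈ bad)))

theorem okI_iff {τ bad : List ℕ} {I : Inst} : okI τ bad I = true ↔
    IsInst τ I ∧ ∀ p ∈ I.2, p.1 ∉ bad := by
  unfold okI IsInst
  simp only [List.all_eq_true, Bool.and_eq_true, decide_eq_true_eq, Bool.not_eq_true',
    decide_eq_false_iff_not]
  constructor
  · intro h
    exact ⟨fun p hp => ⟨(h p hp).1, (h p hp).2.1⟩, fun p hp => (h p hp).2.2⟩
  · rintro ⟨h1, h2⟩ p hp
    exact ⟨(h1 p hp).1, (h1 p hp).2, h2 p hp⟩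

theorem poly_okI (τ bad : List ℕ) : Poly (okI τ bad) := by
  unfold okI
  fun_prop

/-- the tuple with given block numbers -/
def tup (m L : ℕ) (B : ℕ → ℕ) : List ℕ := (List.range L).map (fun y => B (y / m) * m + y % m)

/-- the blocks of a main constraint -/
def mainB (Nb K N t b : ℕ) : ℕ := N + t * K * Nb + b

/-- the blocks of a link -/
def linkB (Nb K e0 e1 : ℕ) (tab : List (List ℕ)) (N t i j x b : ℕ) : ℕ :=
  if b = e0 then x else if b = e1 then N + t * K * Nb + (tab.getD i []).getD j 0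
  else N + (t * K + (j + 1)) * Nb + b

/-- the constraints of the new instance -/
def newC (m Nb K e0 e1 : ℕ) (tab : List (List ℕ)) (I : Inst) : List (ℕ × List ℕ) :=
  I.2.zipIdx.flatMap (fun p =>
    (0, tup m (Nb * m) (mainB Nb K I.1.length p.2)) :: p.1.2.zipIdx.map (fun q =>
      (0, tup m (Nb * m) (linkB Nb K e0 e1 tab I.1.length p.2 p.1.1 q.2 q.1))))

/-- the reduction -/
def red (τ bad : List ℕ) (m Nb K e0 e1 : ℕ) (tab : List (List ℕ)) (I : Inst) : Inst :=
  if okI τ bad I then
    (List.replicate ((I.1.length + I.2.length * (K * Nb)) * m) (), newC m Nb K e0 e1 tab I)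
  else ([], [(1, [])])

theorem poly_red (τ bad : List ℕ) (m Nb K e0 e1 : ℕ) (tab : List (List ℕ)) :
    Poly (red τ bad m Nb K e0 e1 tab) := by
  have h1 : Poly (fun I : Inst => List.replicate ((I.1.length + I.2.length * (K * Nb)) * m) ()) := by
    have h2 : UPoly (fun I : Inst => (I.1.length + I.2.length * (K * Nb)) * m) :=
      UPoly.mul (UPoly.add (UPoly.length (Poly.fst Poly.id))
        (UPoly.mul (UPoly.length (Poly.snd Poly.id)) (UPoly.const _))) (UPoly.const _)
    exact h2
  have h3 : Poly (okI τ bad) := poly_okI τ bad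
  have h4 : Poly (newC m Nb K e0 e1 tab) := by
    unfold newC tup mainB linkB
    fun_prop
  have h5 : Poly (fun I => bif okI τ bad I then
    (List.replicate ((I.1.length + I.2.length * (K * Nb)) * m) (), newC m Nb K e0 e1 tab I)
    else (([], [(1, [])]) : Inst)) := by fun_prop
  refine h5.congr fun I => ?_
  unfold red
  cases okI τ bad I <;> rfl

theorem mem_newC {m Nb K e0 e1 : ℕ} {tab : List (List ℕ)} {I : Inst} {p : ℕ × List ℕ} :
    p ∈ newC m Nb K e0 e1 tab I ↔ ∃ t i l, I.2[t]? = some (i, l) ∧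
      (p = (0, tup m (Nb * m) (mainB Nb K I.1.length t)) ∨ ∃ j x, l[j]? = some x ∧
        p = (0, tup m (Nb * m) (linkB Nb K e0 e1 tab I.1.length t i j x))) := by
  unfold newC
  simp only [List.mem_flatMap, List.mem_cons, List.mem_map, Prod.exists,
    List.mem_zipIdx_iff_getElem?]
  constructor
  · rintro ⟨i, l, t, h1, h2⟩
    refine ⟨t, i, l, h1, ?_⟩
    rcases h2 with h2 | ⟨x, j, h3, h4⟩
    · exact Or.inl h2
    · exact Or.inr ⟨j, x, h3, h4.symm⟩
  · rintro ⟨t, i, l, h1, h2⟩
    refine ⟨i, l, t, h1, ?_⟩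
    rcases h2 with h2 | ⟨j, x, h3, h4⟩
    · exact Or.inl h2
    · exact Or.inr ⟨x, j, h3, h4.symm⟩

end Pool.Agent.E8helper92.BP
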