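import Mathlib

/-!
# Generic functions on tuples

For a countable nonempty set `A` and `m ≥ 1` there is a function `f` from the `m`-tuples of natural
numbers to `A` with the one-point extension property. Countable sets with an arbitrary `A`-valued
function on the injective `m`-tuples embed into it, and finite partial maps which transform the values by
a permutation of `A` extend to permutations with this property.
-/

set_option autoImplicit false

namespace Pool.Agent.E8helper92.BP

open Function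

variable {m : ℕ} {A : Type}

/-- the one-point extension property -/
def Ext (f : (Fin m → ℕ) → A) : Prop :=
  ∀ (F : Finset ℕ) (g : (Fin m → Option ℕ) → A), ∃ n, n ∉ F ∧
    ∀ v : Fin m → ℕ, (∃ i, v i = n) → (∀ i, v i = n ∨ v i ∈ F) →
      f v = g (fun i => if v i = n then none else some (v i))

theorem exists_ext [Countable A] [Nonempty A] : ∃ f : (Fin m → ℕ) → A, Ext f := by
  classical
  obtain ⟨dec, hdec⟩ := exists_surjective_nat A
  obtain ⟨s, hs⟩ := exists_surjective_nat (((Fin m → Option ℕ) →₀ ℕ) × ℕ)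
  refine ⟨fun v => dec ((s (Finset.univ.sup v)).1
    (fun i => if v i = Finset.univ.sup v then none else some (v i))), ?_⟩
  intro F g
  choose c hc using fun u : Fin m → Option ℕ => hdec (g u)
  let T : Finset (Fin m → Option ℕ) := Fintype.piFinset (fun _ => Finset.insertNone F)
  let d : (Fin m → Option ℕ) →₀ ℕ := Finsupp.indicator T (fun u _ => c u)
  have hinf : {n : ℕ | (s n).1 = d}.Infinite := by
    choose p hp using fun k : ℕ => hs (d, k)
    refine Set.infinite_of_injective_forall_mem (f := p) ?_ ?_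
    · intro k l hkl
      have h1 := hp k
      rw [hkl, hp l] at h1
      exact (congrArg Prod.snd h1).symm
    · intro k
      show (s (p k)).1 = d
      rw [hp k]
  obtain ⟨n, hn, hnF⟩ := hinf.exists_gt (F.sup id)
  have hlt : ∀ x ∈ F, x < n := fun x hx => lt_of_le_of_lt (Finset.le_sup (f := id) hx) hnF
  refine ⟨n, fun h => lt_irrefl _ (hlt n h), ?_⟩
  rintro v ⟨i, hi⟩ hv
  have hsup : Finset.univ.sup v = n := by
    apply le_antisymm
    · apply Finset.sup_le
      intro j _
      rcases hv j with h | h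
      · exact h.le
      · exact (hlt _ h).le
    · rw [← hi]
      exact Finset.le_sup (f := v) (Finset.mem_univ i)
  have hn' : (s n).1 = d := hn
  simp only [hsup, hn']
  have hT : (fun i => if v i = n then none else some (v i)) ∈ T := by
    rw [Fintype.mem_piFinset]
    intro j
    by_cases h : v j = n
    · simp [h]
    · rw [if_neg h]
      rcases hv j with h' | h'
      · exact absurd h' h
      · simpa using h'
  show dec (d _) = _
  rw [Finsupp.indicator_of_mem hT]
  exact hc _

/-- finite partial maps `p` such that `f` at the images is the prescribed function `Φ` -/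
def Good (f Φ : (Fin m → ℕ) → A) (p : Finset (ℕ × ℕ)) : Prop :=
  (∀ x ∈ p, ∀ y ∈ p, x.1 = y.1 ↔ x.2 = y.2) ∧
    ∀ t : Fin m → ℕ × ℕ, (∀ i, t i ∈ p) → Injective (fun i => (t i).1) →
      f (fun i => (t i).2) = Φ (fun i => (t i).1)

theorem Good.forth {f Φ : (Fin m → ℕ) → A} (hf : Ext f) {p : Finset (ℕ × ℕ)} (hp : Good f Φ p)
    (G : Finset ℕ) (a : ℕ) (ha : ∀ b, (a, b) ∉ p) :
    ∃ b, b ∉ G ∧ Good f Φ (insert (a, b) p) := by
  classical
  obtain ⟨b, hbF, hb⟩ := hf (p.image Prod.snd ∪ G) (fun u => Φ (fun i => match u i with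
    | none => a
    | some y => if h : ∃ x, (x, y) ∈ p then h.choose else 0))
  rw [Finset.mem_union, not_or] at hbF
  refine ⟨b, hbF.2, ?_, ?_⟩
  · intro x hx y hy
    rw [Finset.mem_insert] at hx hy
    have hb' : ∀ x ∈ p, x.2 ≠ b := fun x hx h => hbF.1 (by
      rw [← h]; exact Finset.mem_image_of_mem _ hx)
    have ha' : ∀ x ∈ p, x.1 ≠ a := fun x hx h => ha x.2 (by rw [← h]; exact hx)
    rcases hx with rfl | hx <;> rcases hy with rfl | hy
    · simp
    · simp only
      exact ⟨fun h => absurd h.symm (ha' y hy), fun h => absurd h.symm (hb' y hy)⟩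
    · simp only
      exact ⟨fun h => absurd h (ha' x hx), fun h => absurd h (hb' x hx)⟩
    · exact hp.1 x hx y hy
  · intro t ht hinj
    by_cases hall : ∀ i, t i ∈ p
    · exact hp.2 t hall hinj
    · push Not at hall
      obtain ⟨i, hi⟩ := hall
      have hti : t i = (a, b) := by
        have := ht i
        rw [Finset.mem_insert] at this
        exact this.resolve_right hi
      rw [hb (fun i => (t i).2) ⟨i, by rw [hti]⟩ (by
        intro j
        have := ht j
        rw [Finset.mem_insert] at this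
        rcases this with h | h
        · left; rw [h]
        · right
          exact Finset.mem_union_left _ (Finset.mem_image_of_mem _ h))]
      congr 1
      funext j
      have := ht j
      rw [Finset.mem_insert] at this
      rcases this with h | h
      · simp [h]
      · have hne : (t j).2 ≠ b := fun h' => hbF.1 (by
          rw [← h']; exact Finset.mem_image_of_mem _ h)
        simp only [if_neg hne]
        have hex : ∃ x, (x, (t j).2) ∈ p := ⟨(t j).1, h⟩
        simp only [dif_pos hex]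
        exact (hp.1 (_, _) hex.choose_spec (t j) h).2 rfl

theorem exists_chain (good : Finset (ℕ × ℕ) → Prop) (Q : ℕ → Finset (ℕ × ℕ) → Prop)
    (h : ∀ p, good p → ∀ k, ∃ p', p ⊆ p' ∧ good p' ∧ Q k p') (p₀ : Finset (ℕ × ℕ))
    (h0 : good p₀) : ∃ s : ℕ → Finset (ℕ × ℕ), s 0 = p₀ ∧ Monotone s ∧ (∀ n, good (s n)) ∧
      ∀ k, Q k (s (k + 1)) := by
  choose nx h1 h2 h3 using h
  let s : ℕ → {p : Finset (ℕ × ℕ) // good p} := fun n =>
    Nat.rec ⟨p₀, h0⟩ (fun k p => ⟨nx p.1 p.2 k, h2 p.1 p.2 k⟩) n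
  refine ⟨fun n => (s n).1, rfl, ?_, fun n => (s n).2, fun k => ?_⟩
  · apply monotone_nat_of_le_succ
    intro n
    exact h1 (s n).1 (s n).2 n
  · exact h3 (s k).1 (s k).2 k

theorem good_empty (hm : 0 < m) (f Φ : (Fin m → ℕ) → A) : Good f Φ ∅ :=
  ⟨by simp, fun t ht _ => absurd (ht ⟨0, hm⟩) (by simp)⟩

/-- the limit of a chain of partial maps -/
theorem limit {f Φ : (Fin m → ℕ) → A} (s : ℕ → Finset (ℕ × ℕ)) (hmono : Monotone s)
    (hgood : ∀ n, Good f Φ (s n)) (hQ : ∀ k, ∃ b, (k, b) ∈ s (k + 1)) :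
    ∃ e : ℕ → ℕ, Injective e ∧ (∀ n, ∀ x ∈ s n, e x.1 = x.2) ∧
      ∀ x : Fin m → ℕ, Injective x → f (fun i => e (x i)) = Φ x := by
  choose e he using hQ
  have hes : ∀ n, ∀ x ∈ s n, e x.1 = x.2 := by
    intro n x hx
    have h1 := hmono (le_max_left n (x.1 + 1)) hx
    have h2 := hmono (le_max_right n (x.1 + 1)) (he x.1)
    exact ((hgood _).1 _ h2 _ h1).1 rfl
  refine ⟨e, ?_, hes, ?_⟩
  · intro a b hab
    have h1 := hmono (le_max_left (a + 1) (b + 1)) (he a)
    have h2 := hmono (le_max_right (a + 1) (b + 1)) (he b)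
    exact ((hgood _).1 _ h1 _ h2).2 hab
  · intro x hx
    have h1 := (hgood (Finset.univ.sup x + 1)).2 (fun i => (x i, e (x i))) (by
      intro i
      apply hmono _ (he (x i))
      have := Finset.le_sup (f := x) (Finset.mem_univ i)
      omega) hx
    exact h1

/-- embedding of countable sets with a function on the tuples -/
theorem Ext.embed (hm : 0 < m) {f : (Fin m → ℕ) → A} (hf : Ext f) (g : (Fin m → ℕ) → A) :
    ∃ e : ℕ → ℕ, Injective e ∧ ∀ x : Fin m → ℕ, Injective x → f (fun i => e (x i)) = g x := by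
  classical
  obtain ⟨s, -, hmono, hgood, hQ⟩ := exists_chain (Good f g) (fun k p => ∃ b, (k, b) ∈ p) (by
    intro p hp k
    by_cases h : ∃ b, (k, b) ∈ p
    · exact ⟨p, subset_rfl, hp, h⟩
    · push Not at h
      obtain ⟨b, -, hb⟩ := hp.forth hf ∅ k h
      exact ⟨insert (k, b) p, Finset.subset_insert _ _, hb, b, Finset.mem_insert_self _ _⟩)
    ∅ (good_empty hm _ _)
  obtain ⟨e, he, -, h⟩ := limit s hmono hgood hQ
  exact ⟨e, he, h⟩

/-- the same for any countable type -/
theorem Ext.embed' (hm : 0 < m) {f : (Fin m → ℕ) → A} (hf : Ext f) {X : Type} [Countable X]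
    (g : (Fin m → X) → A) :
    ∃ e : X → ℕ, Injective e ∧ ∀ x : Fin m → X, Injective x → f (fun i => e (x i)) = g x := by
  classical
  obtain ⟨c, hc⟩ := exists_injective_nat X
  rcases isEmpty_or_nonempty X with hX | hX
  · exact ⟨c, hc, fun x => (hX.false (x ⟨0, hm⟩)).elim⟩
  · obtain ⟨e, he, h⟩ := hf.embed hm (fun y => g (fun i => invFun c (y i)))
    refine ⟨fun x => e (c x), he.comp hc, fun x hx => ?_⟩
    rw [h (fun i => c (x i)) (hc.comp hx)]
    congr 1
    funext i
    exact leftInverse_invFun hc _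

theorem Good.swap {f : (Fin m → ℕ) → A} {α : Equiv.Perm A} {p : Finset (ℕ × ℕ)}
    (h : Good f (fun v => α (f v)) p) :
    Good f (fun v => α.symm (f v)) (p.image Prod.swap) := by
  have hmem : ∀ x : ℕ × ℕ, x ∈ p.image Prod.swap ↔ x.swap ∈ p := by
    intro x
    rw [Finset.mem_image]
    constructor
    · rintro ⟨y, hy, rfl⟩
      simpa using hy
    · intro hx
      exact ⟨x.swap, hx, by simp⟩
  constructor
  · intro x hx y hy
    exact ((h.1 _ ((hmem x).1 hx) _ ((hmem y).1 hy))).symm
  · intro t ht hinj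
    have ht' : ∀ i, (t i).swap ∈ p := fun i => (hmem _).1 (ht i)
    have h1 := h.2 (fun i => (t i).swap) ht' (by
      intro i j hij
      exact hinj (((h.1 _ (ht' i) _ (ht' j))).1 hij))
    simp only [Prod.fst_swap, Prod.snd_swap] at h1
    simp only
    rw [h1, Equiv.symm_apply_apply]

/-- extension of finite partial maps to permutations -/
theorem Ext.extend {f : (Fin m → ℕ) → A} (hf : Ext f) (α : Equiv.Perm A)
    (p₀ : Finset (ℕ × ℕ)) (h0 : Good f (fun v => α (f v)) p₀) :
    ∃ g : Equiv.Perm ℕ, (∀ x ∈ p₀, g x.1 = x.2) ∧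
      ∀ v : Fin m → ℕ, Injective v → f (fun i => g (v i)) = α (f v) := by
  classical
  have hforth : ∀ (β : Equiv.Perm A) (p : Finset (ℕ × ℕ)), Good f (fun v => β (f v)) p → ∀ k,
      ∃ p', p ⊆ p' ∧ Good f (fun v => β (f v)) p' ∧ ∃ b, (k, b) ∈ p' := by
    intro β p hp k
    by_cases h : ∃ b, (k, b) ∈ p
    · exact ⟨p, subset_rfl, hp, h⟩
    · push Not at h
      obtain ⟨b, -, hb⟩ := hp.forth hf ∅ k h
      exact ⟨insert (k, b) p, Finset.subset_insert _ _, hb, b, Finset.mem_insert_self _ _⟩
  obtain ⟨s, hs0, hmono, hgood, hQ⟩ := exists_chain (Good f (fun v => α (f v)))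
    (fun k p => (∃ b, (k, b) ∈ p) ∧ ∃ a, (a, k) ∈ p) (by
    intro p hp k
    obtain ⟨p1, h1, hp1, b, hb⟩ := hforth α p hp k
    obtain ⟨p2, h2, hp2, a, ha⟩ := hforth α.symm _ hp1.swap k
    refine ⟨p2.image Prod.swap, ?_, ?_, ⟨b, ?_⟩, ⟨a, ?_⟩⟩
    · intro x hx
      rw [Finset.mem_image]
      exact ⟨x.swap, h2 (Finset.mem_image_of_mem _ (h1 hx)), by simp⟩
    · have := hp2.swap
      simpa using this
    · rw [Finset.mem_image]
      exact ⟨(b, k), h2 (Finset.mem_image.2 ⟨(k, b), hb, rfl⟩), rfl⟩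
    · rw [Finset.mem_image]
      exact ⟨(k, a), ha, rfl⟩)
    p₀ h0
  obtain ⟨e, he, hes, h⟩ := limit s hmono hgood (fun k => (hQ k).1)
  have hsurj : Surjective e := by
    intro b
    obtain ⟨a, ha⟩ := (hQ b).2
    exact ⟨a, hes _ _ ha⟩
  refine ⟨Equiv.ofBijective e ⟨he, hsurj⟩, ?_, ?_⟩
  · intro x hx
    rw [← hs0] at hx
    exact hes 0 x hx
  · intro v hv
    exact h v hv

end Pool.Agent.E8helper92.BP
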