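import Pool.Agent.E8helper92.BP.Gen
import Pool.Agent.W994.AR.FB

/-!
# The lift of a structure to the tuples of a generic set
-/

set_option autoImplicit false

namespace Pool.Agent.E8helper92.BP

open Function Pool.Agent.W994.AR

/-- the block number `j` of a tuple -/
def blk {m r : ℕ} {V : Type} (w : Fin (r * m) → V) (j : Fin r) : Fin m → V :=
  fun a => w (finProdFinEquiv (j, a))

/-- the tuple with given blocks -/
def mk {m r : ℕ} {V : Type} (u : Fin r → Fin m → V) : Fin (r * m) → V :=
  fun x => u (finProdFinEquiv.symm x).1 (finProdFinEquiv.symm x).2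

@[simp] theorem blk_mk {m r : ℕ} {V : Type} (u : Fin r → Fin m → V) (j : Fin r) :
    blk (mk u) j = u j := by
  funext a
  simp [blk, mk]

theorem mk_blk {m r : ℕ} {V : Type} (w : Fin (r * m) → V) : mk (blk w) = w := by
  funext x
  simp only [blk, mk, Prod.mk.eta, Equiv.apply_symm_apply]

/-- the arities of the lift -/
def lar {σ : Type} (ar : σ → ℕ) (m : ℕ) : Option σ → ℕ
  | none => 2 * m
  | some i => ar i * m

variable {m : ℕ} {A σ : Type} {ar : σ → ℕ}

/-- the two blocks are injective and have the same value under `f` -/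
def liftE (f : (Fin m → ℕ) → A) : Set (Fin (2 * m) → ℕ) :=
  {w | (∀ j, Injective (blk w j)) ∧ f (blk w 0) = f (blk w 1)}

/-- the blocks are injective and their values under `f` are related by `S` -/
def liftR (f : (Fin m → ℕ) → A) {r : ℕ} (S : Set (Fin r → A)) : Set (Fin (r * m) → ℕ) :=
  {w | (∀ j, Injective (blk w j)) ∧ (fun j => f (blk w j)) ∈ S}

/-- the lift of a structure `𝔹` along a function `f` on tuples: every relation of `𝔹` becomes a relation
between injective `m`-tuples through their values under `f`, and there is a relation for the equality of the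
values -/
def lift (f : (Fin m → ℕ) → A) (𝔹 : Str σ ar A) : Str (Option σ) (lar ar m) ℕ
  | none => liftE f
  | some i => liftR f (𝔹 i)

theorem mem_autGroup {f : (Fin m → ℕ) → A} {𝔹 : Str σ ar A} {g : Equiv.Perm ℕ}
    {α : Equiv.Perm A} (hα : α ∈ autGroup 𝔹)
    (h : ∀ v : Fin m → ℕ, Injective v → f (fun i => g (v i)) = α (f v)) :
    g ∈ autGroup (lift f 𝔹) := by
  have hinj : ∀ v : Fin m → ℕ, Injective (fun a => g (v a)) ↔ Injective v := fun v =>
    Injective.of_comp_iff g.injective v
  rintro (_ | i) w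
  · constructor
    · rintro ⟨h1, h2⟩
      refine ⟨fun j => (hinj _).2 (h1 j), ?_⟩
      show f (fun a => g (blk w 0 a)) = f (fun a => g (blk w 1 a))
      rw [h _ (h1 0), h _ (h1 1), h2]
    · rintro ⟨h1, h2⟩
      have h1' : ∀ j, Injective (blk w j) := fun j => (hinj _).1 (h1 j)
      refine ⟨h1', ?_⟩
      change f (fun a => g (blk w 0 a)) = f (fun a => g (blk w 1 a)) at h2
      rw [h _ (h1' 0), h _ (h1' 1)] at h2
      exact α.injective h2
  · have hiff := hα i
    constructor
    · rintro ⟨h1, h2⟩
      refine ⟨fun j => (hinj _).2 (h1 j), ?_⟩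
      have h3 : (fun j => f (fun a => g (blk w j a))) = fun j => α (f (blk w j)) :=
        funext fun j => h _ (h1 j)
      show (fun j => f (fun a => g (blk w j a))) ∈ 𝔹 i
      rw [h3]
      exact (hiff _).1 h2
    · rintro ⟨h1, h2⟩
      have h1' : ∀ j, Injective (blk w j) := fun j => (hinj _).1 (h1 j)
      refine ⟨h1', ?_⟩
      have h3 : (fun j => f (fun a => g (blk w j a))) = fun j => α (f (blk w j)) :=
        funext fun j => h _ (h1' j)
      change (fun j => f (fun a => g (blk w j a))) ∈ 𝔹 i at h2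
      rw [h3] at h2
      exact (hiff _).2 h2

theorem good_of {f Φ : (Fin m → ℕ) → A} (F : Finset ℕ) (h : ℕ → ℕ)
    (hinj : ∀ x ∈ F, ∀ y ∈ F, h x = h y → x = y)
    (hΦ : ∀ v : Fin m → ℕ, (∀ i, v i ∈ F) → Injective v → f (fun i => h (v i)) = Φ v) :
    Good f Φ (F.image (fun x => (x, h x))) := by
  constructor
  · intro x hx y hy
    rw [Finset.mem_image] at hx hy
    obtain ⟨x, hx, rfl⟩ := hx
    obtain ⟨y, hy, rfl⟩ := hy
    simp only
    exact ⟨fun e => by rw [e], hinj x hx y hy⟩
  · intro t ht hti
    have h1 : ∀ i, (t i).1 ∈ F ∧ (t i).2 = h (t i).1 := by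
      intro i
      have := ht i
      rw [Finset.mem_image] at this
      obtain ⟨x, hx, hx'⟩ := this
      rw [← hx']
      exact ⟨hx, rfl⟩
    have h2 : (fun i => (t i).2) = fun i => h (t i).1 := funext fun i => (h1 i).2
    rw [h2]
    exact hΦ _ (fun i => (h1 i).1) hti

theorem lift_homogeneous {f : (Fin m → ℕ) → A} (hf : Ext f) {𝔹 : Str σ ar A}
    (hB : Homogeneous 𝔹) : Homogeneous (lift f 𝔹) := by
  classical
  intro F h hinj hrel
  let W := {v : Fin m → F // Injective v}
  have hvinj : ∀ v : W, Injective (fun a => (v.1 a : ℕ)) := fun v =>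
    Subtype.val_injective.comp v.2
  have hvinj' : ∀ v : W, Injective (fun a => h (v.1 a : ℕ)) := by
    intro v a b hab
    exact v.2 (Subtype.ext (hinj _ (v.1 a).2 _ (v.1 b).2 hab))
  obtain ⟨α, hα, hαv⟩ := hom_same hB (V := W) (fun v => f (fun a => (v.1 a : ℕ)))
    (fun v => f (fun a => h (v.1 a : ℕ))) (by
      intro v w
      have h1 := hrel none (mk ![fun a => (v.1 a : ℕ), fun a => (w.1 a : ℕ)]) (by
        intro j
        show (![fun a => (v.1 a : ℕ), fun a => (w.1 a : ℕ)] _ _) ∈ F
        generalize (finProdFinEquiv.symm j).1 = x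
        fin_cases x
        · exact (v.1 _).2
        · exact (w.1 _).2)
      have e1 : mk ![fun a => (v.1 a : ℕ), fun a => (w.1 a : ℕ)] ∈ lift f 𝔹 none ↔
          f (fun a => (v.1 a : ℕ)) = f (fun a => (w.1 a : ℕ)) := by
        show (_ ∧ _) ↔ _
        rw [blk_mk, blk_mk]
        constructor
        · rintro ⟨_, h⟩
          exact h
        · intro h
          refine ⟨fun j => ?_, h⟩
          rw [blk_mk]
          fin_cases j
          · exact hvinj v
          · exact hvinj w
      have e2 : (fun j => h (mk ![fun a => (v.1 a : ℕ), fun a => (w.1 a : ℕ)] j)) ∈ lift f 𝔹 none ↔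
          f (fun a => h (v.1 a : ℕ)) = f (fun a => h (w.1 a : ℕ)) := by
        have e3 : (fun j => h (mk ![fun a => (v.1 a : ℕ), fun a => (w.1 a : ℕ)] j)) =
            mk ![fun a => h (v.1 a : ℕ), fun a => h (w.1 a : ℕ)] := by
          funext j
          simp only [mk]
          generalize (finProdFinEquiv.symm j).1 = x
          fin_cases x <;> rfl
        rw [e3]
        show (_ ∧ _) ↔ _
        rw [blk_mk, blk_mk]
        constructor
        · rintro ⟨_, h⟩
          exact h
        · intro h
          refine ⟨fun j => ?_, h⟩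
          rw [blk_mk]
          fin_cases j
          · exact hvinj' v
          · exact hvinj' w
      rw [← e1, ← e2]
      exact h1) (by
      intro i s
      have h1 := hrel (some i) (mk (fun j a => ((s j).1 a : ℕ))) (by
        intro j
        exact ((s _).1 _).2)
      have e1 : mk (fun j a => ((s j).1 a : ℕ)) ∈ lift f 𝔹 (some i) ↔
          (fun j => f (fun a => ((s j).1 a : ℕ))) ∈ 𝔹 i := by
        show (_ ∧ _) ↔ _
        simp only [blk_mk]
        exact ⟨fun h => h.2, fun h => ⟨fun j => hvinj (s j), h⟩⟩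
      have e2 : (fun x => h (mk (fun j a => ((s j).1 a : ℕ)) x)) ∈ lift f 𝔹 (some i) ↔
          (fun j => f (fun a => h ((s j).1 a : ℕ))) ∈ 𝔹 i := by
        have e3 : (fun x => h (mk (fun j a => ((s j).1 a : ℕ)) x)) =
            mk (fun j a => h ((s j).1 a : ℕ)) := rfl
        rw [e3]
        show (_ ∧ _) ↔ _
        simp only [blk_mk]
        exact ⟨fun h => h.2, fun h => ⟨fun j => hvinj' (s j), h⟩⟩
      exact (e1.symm.trans (h1.trans e2)))
  obtain ⟨g, hg, hg'⟩ := hf.extend α (F.image (fun x => (x, h x)))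
    (good_of F h hinj (by
      intro v hv hvi
      exact (hαv ⟨fun i => ⟨v i, hv i⟩, fun i j hij => hvi (congrArg Subtype.val hij)⟩).symm))
  exact ⟨g, mem_autGroup hα hg', fun x hx => hg _ (Finset.mem_image_of_mem _ hx)⟩

/-- `k`-transitivity of a permutation group -/
def KTransitive {V : Type} (G : Subgroup (Equiv.Perm V)) (k : ℕ) : Prop :=
  ∀ u v : Fin k → V, Injective u → Injective v → ∃ g ∈ G, ∀ i, g (u i) = v i

/-- No algebraicity: a point outside a finite set `F` has an infinite orbit under the pointwise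
stabilizer of `F`. -/
def NoAlgebraicity {V : Type} (G : Subgroup (Equiv.Perm V)) : Prop :=
  ∀ (F : Finset V) (a : V), a ∉ F → {b | ∃ g ∈ G, (∀ x ∈ F, g x = x) ∧ g a = b}.Infinite

theorem lift_transitive {f : (Fin m → ℕ) → A} (hf : Ext f) (𝔹 : Str σ ar A) {k : ℕ} (hk : k < m) :
    KTransitive (autGroup (lift f 𝔹)) k := by
  classical
  intro u v hu hv
  have hex : ∀ x ∈ Finset.univ.image u, ∃ i, u i = x := by
    intro x hx
    simpa using hx
  let h : ℕ → ℕ := fun x => if hx : ∃ i, u i = x then v hx.choose else 0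
  have hh : ∀ i, h (u i) = v i := by
    intro i
    have hx : ∃ i', u i' = u i := ⟨i, rfl⟩
    simp only [h, dif_pos hx]
    congr 1
    exact hu hx.choose_spec
  obtain ⟨g, hg, hg'⟩ := hf.extend 1 ((Finset.univ.image u).image (fun x => (x, h x)))
    (good_of _ h (by
      intro x hx y hy hxy
      obtain ⟨i, rfl⟩ := hex x hx
      obtain ⟨j, rfl⟩ := hex y hy
      rw [hh, hh] at hxy
      rw [hv hxy]) (by
      intro w hw hwi
      exfalso
      have h1 : (Finset.univ.image w).card ≤ (Finset.univ.image u).card := by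
        apply Finset.card_le_card
        intro x hx
        rw [Finset.mem_image] at hx
        obtain ⟨i, _, rfl⟩ := hx
        exact hw i
      rw [Finset.card_image_of_injective _ hwi, Finset.card_image_of_injective _ hu] at h1
      simp at h1
      omega))
  refine ⟨g, mem_autGroup (autGroup 𝔹).one_mem hg', fun i => ?_⟩
  rw [← hh i]
  exact hg (u i, h (u i)) (Finset.mem_image_of_mem _ (Finset.mem_image_of_mem _ (Finset.mem_univ i)))

theorem lift_noAlgebraicity {f : (Fin m → ℕ) → A} (hf : Ext f) (𝔹 : Str σ ar A) :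
    NoAlgebraicity (autGroup (lift f 𝔹)) := by
  classical
  intro F a ha hfin
  have h1 : Good f (fun v => (1 : Equiv.Perm A) (f v)) (F.image (fun x => (x, id x))) :=
    good_of F id (fun x _ y _ h => h) (fun v _ _ => rfl)
  obtain ⟨b, hb, hb'⟩ := h1.forth hf hfin.toFinset a (by
    intro b hb
    rw [Finset.mem_image] at hb
    obtain ⟨x, hx, hx'⟩ := hb
    simp only [Prod.mk.injEq] at hx'
    rw [hx'.1] at hx
    exact ha hx)
  obtain ⟨g, hg, hg'⟩ := hf.extend 1 _ hb'
  apply hb
  rw [Set.Finite.mem_toFinset]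
  refine ⟨g, mem_autGroup (autGroup 𝔹).one_mem hg', fun x hx => ?_, ?_⟩
  · exact hg (x, x) (Finset.mem_insert_of_mem (Finset.mem_image_of_mem _ hx))
  · exact hg (a, b) (Finset.mem_insert_self _ _)

end Pool.Agent.E8helper92.BP
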