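import Pool.Agent.E8helper92.BP.Lift

/-!
# The lift is finitely bounded
-/

set_option autoImplicit false

namespace Pool.Agent.E8helper92.BP

open Function Pool.Agent.W994.AR

variable {m : ℕ} {A σ : Type} {ar : σ → ℕ}

theorem mk_pair {V : Type} (v w : Fin m → V) (e : V → ℕ) :
    (fun x => e (mk ![v, w] x)) = mk ![fun a => e (v a), fun a => e (w a)] := by
  funext j
  simp only [mk]
  generalize (finProdFinEquiv.symm j).1 = x
  fin_cases x <;> rfl

theorem pair_mem {f : (Fin m → ℕ) → A} (v w : Fin m → ℕ) :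
    mk ![v, w] ∈ liftE f ↔ Injective v ∧ Injective w ∧ f v = f w := by
  show (_ ∧ _) ↔ _
  rw [blk_mk, blk_mk]
  constructor
  · rintro ⟨h1, h⟩
    have h2 := h1 0
    have h3 := h1 1
    rw [blk_mk] at h2 h3
    exact ⟨h2, h3, h⟩
  · rintro ⟨h1, h2, h⟩
    refine ⟨fun j => ?_, h⟩
    rw [blk_mk]
    fin_cases j
    · exact h1
    · exact h2

theorem rel_mem {f : (Fin m → ℕ) → A} {r : ℕ} {S : Set (Fin r → A)} (u : Fin r → Fin m → ℕ) :
    mk u ∈ liftR f S ↔ (∀ j, Injective (u j)) ∧ (fun j => f (u j)) ∈ S := by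
  show (_ ∧ _) ↔ _
  simp only [blk_mk]

theorem mk_two {V : Type} (w : Fin (2 * m) → V) : mk ![blk w 0, blk w 1] = w := by
  rw [← mk_blk w]
  congr 1
  funext j
  fin_cases j <;> simp

theorem lift_finitelyBounded [Finite σ] (hm : 0 < m) {f : (Fin m → ℕ) → A} (hf : Ext f)
    {𝔹 : Str σ ar A} (hB : FinitelyBounded 𝔹) : FinitelyBounded (lift f 𝔹) := by
  classical
  have := Fintype.ofFinite σ
  obtain ⟨N, hN, hNB⟩ := hB
  obtain ⟨K0, hK0⟩ : ∃ K' : ℕ, ∀ Y ∈ N, Y.1 ≤ K' := by
    obtain ⟨K', hK'⟩ := (hN.image (fun Y => Y.1)).bddAbove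
    exact ⟨K', fun Y hY => hK' ⟨Y, hY, rfl⟩⟩
  let K1 : ℕ := Finset.univ.sup ar
  have hK1 : ∀ j, ar j ≤ K1 := fun j => Finset.le_sup (f := ar) (Finset.mem_univ j)
  let R : ℕ := 3 + 2 * K1 + K0
  let K : ℕ := R * m
  have hfinK : {Y : Σ n : ℕ, Str (Option σ) (lar ar m) (Fin n) | Y.1 ≤ K}.Finite := by
    have h1 : {Y : Σ n : ℕ, Str (Option σ) (lar ar m) (Fin n) | Y.1 ≤ K} ⊆
        ⋃ n ∈ Set.Iic K, Set.range (fun Z : Str (Option σ) (lar ar m) (Fin n) =>
          (⟨n, Z⟩ : Σ n : ℕ, Str (Option σ) (lar ar m) (Fin n))) := by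
      rintro ⟨n, Z⟩ hZ
      simp only [Set.mem_iUnion]
      exact ⟨n, hZ, Z, rfl⟩
    refine Set.Finite.subset (Set.Finite.biUnion (Set.finite_Iic K) (fun n _ => ?_)) h1
    have := finite_str (σ := Option σ) (lar ar m) n
    exact Set.finite_range _
  refine ⟨{Y | Y.1 ≤ K ∧ ¬ Embeds Y.2 (lift f 𝔹)}, hfinK.subset (fun Y hY => hY.1), ?_⟩
  intro n 𝕏
  constructor
  · intro hX Y hY hYX
    exact hY.2 (hYX.trans hX)
  intro hX
  -- small substructures embed
  have hloc0 : ∀ T : Finset (Fin n), T.card ≤ K → ∃ e : Fin n → ℕ,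
      (∀ x ∈ T, ∀ y ∈ T, e x = e y → x = y) ∧
      ∀ i (v : Fin (lar ar m i) → Fin n), (∀ j, v j ∈ T) →
        (v ∈ 𝕏 i ↔ (fun j => e (v j)) ∈ lift f 𝔹 i) := by
    intro T hT
    let ε : Fin T.card ≃ T := T.equivFin.symm
    let Y : Str (Option σ) (lar ar m) (Fin T.card) := fun i => {v | (fun j => (ε (v j) : Fin n)) ∈ 𝕏 i}
    have hY : Embeds Y (lift f 𝔹) := by
      by_contra hcon
      exact hX ⟨T.card, Y⟩ ⟨hT, hcon⟩ ⟨fun x => (ε x : Fin n),
        Subtype.val_injective.comp ε.injective, fun i v => Iff.rfl⟩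
    obtain ⟨e', he', h'⟩ := hY
    refine ⟨fun x => if hx : x ∈ T then e' (ε.symm ⟨x, hx⟩) else 0, ?_, ?_⟩
    · intro x hx y hy hxy
      simp only [dif_pos hx, dif_pos hy] at hxy
      have := ε.symm.injective (he' hxy)
      exact congrArg Subtype.val this
    · intro i v hv
      have h1 := h' i (fun j => ε.symm ⟨v j, hv j⟩)
      have h2 : (fun j => (ε (ε.symm ⟨v j, hv j⟩) : Fin n)) = v := by
        funext j
        rw [Equiv.apply_symm_apply]
      have h3 : (fun j => if hx : v j ∈ T then e' (ε.symm ⟨v j, hx⟩) else 0) =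
          fun j => e' (ε.symm ⟨v j, hv j⟩) := by
        funext j
        rw [dif_pos (hv j)]
      rw [h3]
      rw [← h1]
      show v ∈ 𝕏 i ↔ (fun j => (ε (ε.symm ⟨v j, hv j⟩) : Fin n)) ∈ 𝕏 i
      rw [h2]
  let X0 : Set (Fin (2 * m) → Fin n) := 𝕏 none
  let X1 : ∀ i, Set (Fin (ar i * m) → Fin n) := fun i => 𝕏 (some i)
  -- in terms of blocks
  have hloc : ∀ (r : ℕ) (u : Fin r → Fin m → Fin n), r ≤ R → ∃ e : Fin n → ℕ,
      (∀ j a j' a', e (u j a) = e (u j' a') → u j a = u j' a') ∧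
      (∀ (v : Fin (2 * m) → Fin n), (∀ x, ∃ j a, v x = u j a) →
        (v ∈ X0 ↔ (fun j => e (v j)) ∈ liftE f)) ∧
      ∀ i (v : Fin (ar i * m) → Fin n), (∀ x, ∃ j a, v x = u j a) →
        (v ∈ X1 i ↔ (fun j => e (v j)) ∈ liftR f (𝔹 i)) := by
    intro r u hr
    let T : Finset (Fin n) := Finset.univ.image (fun x : Fin r × Fin m => u x.1 x.2)
    have hT : T.card ≤ K := by
      refine (Finset.card_image_le).trans ?_
      rw [Finset.card_univ, Fintype.card_prod, Fintype.card_fin, Fintype.card_fin]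
      exact Nat.mul_le_mul_right m hr
    obtain ⟨e, he1, he2⟩ := hloc0 T hT
    have hmem : ∀ j a, u j a ∈ T := fun j a =>
      Finset.mem_image.2 ⟨(j, a), Finset.mem_univ _, rfl⟩
    refine ⟨e, fun j a j' a' h => he1 _ (hmem j a) _ (hmem j' a') h, fun v hv => he2 none v ?_,
      fun i v hv => he2 (some i) v ?_⟩
    · intro x
      obtain ⟨j, a, h⟩ := hv x
      rw [h]
      exact hmem j a
    · intro x
      obtain ⟨j, a, h⟩ := hv x
      rw [h]
      exact hmem j a
  let T := {v : Fin m → Fin n // Injective v}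
  -- blocks
  have hlocT : ∀ (r : ℕ) (u : Fin r → T), r ≤ R → ∃ e : Fin n → ℕ,
      (∀ j, Injective (fun a => e ((u j).1 a))) ∧
      (∀ j j', mk ![(u j).1, (u j').1] ∈ X0 ↔
        f (fun a => e ((u j).1 a)) = f (fun a => e ((u j').1 a))) ∧
      ∀ i (s : Fin (ar i) → Fin r), mk (fun j => (u (s j)).1) ∈ X1 i ↔
        (fun j => f (fun a => e ((u (s j)).1 a))) ∈ 𝔹 i := by
    intro r u hr
    obtain ⟨e, he1, he2, he3⟩ := hloc r (fun j => (u j).1) hr
    have hinj : ∀ j, Injective (fun a => e ((u j).1 a)) := by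
      intro j a b hab
      exact (u j).2 (he1 _ _ _ _ hab)
    refine ⟨e, hinj, ?_, ?_⟩
    · intro j j'
      rw [he2 (mk ![(u j).1, (u j').1]) (by
        intro x
        show ∃ j_1 a, (![(u j).1, (u j').1] _ _) = _
        generalize (finProdFinEquiv.symm x).1 = y
        fin_cases y
        · exact ⟨j, _, rfl⟩
        · exact ⟨j', _, rfl⟩)]
      rw [mk_pair, pair_mem]
      exact ⟨fun h => h.2.2, fun h => ⟨hinj j, hinj j', h⟩⟩
    · intro i s
      rw [he3 i (mk (fun j => (u (s j)).1)) (by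
        intro x
        exact ⟨s _, _, rfl⟩)]
      show mk (fun j a => e ((u (s j)).1 a)) ∈ _ ↔ _
      rw [rel_mem]
      exact ⟨fun h => h.2, fun h => ⟨fun j => hinj _, h⟩⟩
  -- relations hold at injective blocks only
  have hexblk : ∀ {r : ℕ} (w : Fin (r * m) → Fin n) (x : Fin (r * m)),
      ∃ j a, w x = blk w j a := fun w x =>
    ⟨(finProdFinEquiv.symm x).1, (finProdFinEquiv.symm x).2, by
      simp only [blk, Prod.mk.eta, Equiv.apply_symm_apply]⟩
  have hblk0 : ∀ (w : Fin (2 * m) → Fin n), w ∈ X0 → ∀ j, Injective (blk w j) := by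
    intro w hw
    obtain ⟨e, he1, he2, -⟩ := hloc 2 (blk w) (by simp only [R]; omega)
    have h1 := (he2 w (hexblk w)).1 hw
    intro j a b hab
    apply h1.1 j
    show e (blk w j a) = e (blk w j b)
    rw [hab]
  have hblk1 : ∀ i (w : Fin (ar i * m) → Fin n), w ∈ X1 i → ∀ j, Injective (blk w j) := by
    intro i w hw
    obtain ⟨e, he1, -, he2⟩ := hloc (ar i) (blk w) (by
      have := hK1 i
      simp only [R]; omega)
    have h1 := (he2 i w (hexblk w)).1 hw
    intro j a b hab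
    apply h1.1 j
    show e (blk w j a) = e (blk w j b)
    rw [hab]
  -- the equivalence relation
  let S : Setoid T := {
    r := fun v w => mk ![v.1, w.1] ∈ X0
    iseqv := by
      constructor
      · intro v
        obtain ⟨e, -, he, -⟩ := hlocT 1 ![v] (by simp only [R]; omega)
        exact (he 0 0).2 rfl
      · intro v w h
        obtain ⟨e, -, he, -⟩ := hlocT 2 ![v, w] (by simp only [R]; omega)
        exact (he 1 0).2 ((he 0 1).1 h).symm
      · intro v w z h h'
        obtain ⟨e, -, he, -⟩ := hlocT 3 ![v, w, z] (by simp only [R]; omega)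
        exact (he 0 2).2 (((he 0 1).1 h).trans ((he 1 2).1 h')) }
  let Q := Quotient S
  have hQfin : Finite Q := inferInstance
  -- invariance of the relations
  have hinv : ∀ i (u u' : Fin (ar i) → T), (∀ j, S.r (u j) (u' j)) →
      mk (fun j => (u j).1) ∈ X1 i → mk (fun j => (u' j).1) ∈ X1 i := by
    intro i u u' h h1
    obtain ⟨e, -, he, he'⟩ := hlocT (ar i + ar i) (Fin.append u u') (by
      have := hK1 i
      simp only [R]; omega)
    have a1 := he' i (fun j => Fin.castAdd _ j)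
    have a2 := he' i (fun j => Fin.natAdd _ j)
    simp only [Fin.append_left] at a1
    simp only [Fin.append_right] at a2
    rw [a2]
    rw [a1] at h1
    convert h1 using 1
    funext j
    have h2 := he (Fin.castAdd _ j) (Fin.natAdd _ j)
    simp only [Fin.append_left, Fin.append_right] at h2
    exact (h2.1 (h j)).symm
  let ℚ' : Str σ ar Q := fun i => {z | mk (fun j => ((z j).out).1) ∈ X1 i}
  have hℚ : ∀ i (u : Fin (ar i) → T), (fun j => (Quotient.mk S (u j))) ∈ ℚ' i ↔
      mk (fun j => (u j).1) ∈ X1 i := by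
    intro i u
    have h1 : ∀ j, S.r ((Quotient.mk S (u j)).out) (u j) := fun j => Quotient.mk_out (u j)
    exact ⟨hinv i _ _ h1, hinv i _ _ (fun j => S.iseqv.symm (h1 j))⟩
  have hemb : Embeds ℚ' 𝔹 := by
    obtain ⟨k, ⟨ε⟩⟩ := Finite.exists_equiv_fin Q
    let Y : Str σ ar (Fin k) := fun i => {v | (fun j => ε.symm (v j)) ∈ ℚ' i}
    have h1 : Embeds ℚ' Y := by
      refine ⟨ε, ε.injective, fun i v => ?_⟩
      show _ ↔ (fun j => ε.symm (ε (v j))) ∈ ℚ' i
      simp
    refine h1.trans ?_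
    rw [hNB]
    intro Z hZ hZY
    have h2 : Embeds Z.2 ℚ' := hZY.trans ⟨ε.symm, ε.symm.injective, fun i v => Iff.rfl⟩
    obtain ⟨q, hq, hq'⟩ := h2
    obtain ⟨e, he1, he2, he3⟩ := hlocT Z.1 (fun y => (q y).out) (by
      have := hK0 Z hZ
      simp only [R]; omega)
    refine (hNB Z.1 Z.2).1 ⟨fun y => f (fun a => e ((q y).out.1 a)), ?_, ?_⟩ Z hZ
      ⟨id, injective_id, fun i v => Iff.rfl⟩
    · intro y y' h
      apply hq
      have h3 : S.r (q y).out (q y').out := (he2 y y').2 h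
      have h4 := Quotient.sound (s := S) h3
      simpa using h4
    · intro i v
      rw [hq' i v]
      exact he3 i v
  obtain ⟨ε, hε, hε'⟩ := hemb
  have ha0 : Nonempty A := ⟨f (fun _ => 0)⟩
  obtain ⟨e, he, he'⟩ := hf.embed' hm (X := Fin n) (fun x => if hx : Injective x then
    ε (Quotient.mk S ⟨x, hx⟩) else ha0.some)
  have hev : ∀ x : Fin m → Fin n, ∀ hx : Injective x, f (fun a => e (x a)) =
      ε (Quotient.mk S ⟨x, hx⟩) := by
    intro x hx
    rw [he' x hx, dif_pos hx]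
  have heinj : ∀ x : Fin m → Fin n, Injective (fun a => e (x a)) ↔ Injective x := fun x =>
    Injective.of_comp_iff he x
  have final0 : ∀ w : Fin (2 * m) → Fin n, w ∈ X0 ↔ (fun j => e (w j)) ∈ liftE f := by
    intro w
    constructor
    · intro hw
      have h1 := hblk0 w hw
      refine ⟨fun j => (heinj _).2 (h1 j), ?_⟩
      show f (fun a => e (blk w 0 a)) = f (fun a => e (blk w 1 a))
      rw [hev _ (h1 0), hev _ (h1 1)]
      congr 1
      apply Quotient.sound
      show mk ![blk w 0, blk w 1] ∈ X0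
      rw [mk_two]
      exact hw
    · rintro ⟨h1, h2⟩
      have h1' : ∀ j, Injective (blk w j) := fun j => (heinj _).1 (h1 j)
      change f (fun a => e (blk w 0 a)) = f (fun a => e (blk w 1 a)) at h2
      rw [hev _ (h1' 0), hev _ (h1' 1)] at h2
      have h3 := Quotient.exact (hε h2)
      have h4 : mk ![blk w 0, blk w 1] ∈ X0 := h3
      rw [mk_two] at h4
      exact h4
  have final1 : ∀ i (w : Fin (ar i * m) → Fin n), w ∈ X1 i ↔
      (fun j => e (w j)) ∈ liftR f (𝔹 i) := by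
    intro i w
    have key : ∀ h1' : ∀ j, Injective (blk w j),
        ((fun j => f (fun a => e (blk w j a))) ∈ 𝔹 i ↔ w ∈ X1 i) := by
      intro h1'
      have h3 : (fun j => f (fun a => e (blk w j a))) =
          fun j => ε (Quotient.mk S ⟨blk w j, h1' j⟩) := funext fun j => hev _ (h1' j)
      rw [h3]
      rw [← hε' i (fun j => Quotient.mk S ⟨blk w j, h1' j⟩)]
      rw [hℚ i (fun j => ⟨blk w j, h1' j⟩)]
      simp only
      have h4 : mk (fun j => blk w j) = w := mk_blk w
      rw [h4]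
    constructor
    · intro hw
      have h1 := hblk1 i w hw
      refine ⟨fun j => (heinj _).2 (h1 j), ?_⟩
      exact (key h1).2 hw
    · rintro ⟨h1, h2⟩
      have h1' : ∀ j, Injective (blk w j) := fun j => (heinj _).1 (h1 j)
      exact (key h1').1 h2
  refine ⟨e, he, ?_⟩
  rintro (_ | i) w
  · exact final0 w
  · exact final1 i w

end Pool.Agent.E8helper92.BP
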