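import Pool.Agent.E8helper92.BP.RedOK

/-!
# The reduction of all templates to templates with a single relation and a highly transitive group
-/

set_option autoImplicit false

namespace Pool.Agent.E8helper92.BP

open Function Pool.Agent.W994.AR Pool.Agent.NPC
open Pool.Agent.H593R3.FBC (Inst IsInst CSP Rels)

theorem autGroup_le_expand {V σ τ : Type} {ar : σ → ℕ} {k : τ → ℕ} {𝔹 : Str σ ar V} {R : Str τ k V}
    (hR : ∀ j, Invar (autGroup 𝔹) (R j)) : autGroup 𝔹 ≤ autGroup (expand 𝔹 R) := by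
  intro g hg
  rintro (i | j) v
  · exact hg i v
  · constructor
    · intro hv
      exact hR j g hg v hv
    · intro hv
      have h1 := hR j g⁻¹ ((autGroup 𝔹).inv_mem hg) _ hv
      have h2 : (fun i => g⁻¹ (g (v i))) = v := by funext i; simp
      have h3 : (fun i => g⁻¹ (g (v i))) ∈ R j := h1
      rw [h2] at h3
      exact h3

theorem KTransitive.mono {V : Type} {G H : Subgroup (Equiv.Perm V)} (hGH : G ≤ H) {k : ℕ}
    (h : KTransitive G k) : KTransitive H k := by
  intro u v hu hv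
  obtain ⟨g, hg, hg'⟩ := h u v hu hv
  exact ⟨g, hGH hg, hg'⟩

theorem NoAlgebraicity.mono {V : Type} {G H : Subgroup (Equiv.Perm V)} (hGH : G ≤ H)
    (h : NoAlgebraicity G) : NoAlgebraicity H := by
  intro F a ha
  refine (h F a ha).mono ?_
  rintro b ⟨g, hg, hg'⟩
  exact ⟨g, hGH hg, hg'⟩

/-- The main construction. -/
theorem main {σ : Type} [Finite σ] {ar : σ → ℕ} {B : Type} [Countable B] [Nonempty B]
    (𝔹 : Str σ ar B) (hhom : Homogeneous 𝔹) (hfb : FinitelyBounded 𝔹) {n : ℕ} (s : Fin n → σ)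
    (k : ℕ) : ∃ (σ' : Type) (_ : Finite σ') (ar' : σ' → ℕ) (𝔹' : Str σ' ar' ℕ) (r : σ'),
      Homogeneous 𝔹' ∧ FinitelyBounded 𝔹' ∧ KTransitive (autGroup 𝔹') k ∧
      NoAlgebraicity (autGroup 𝔹') ∧
      (∀ d, 0 < d → ∃ h : (Fin d → ℕ) → ℕ, Injective h ∧ IsPol 𝔹' h) ∧
      (∀ w ∈ 𝔹' r, Injective w) ∧
      (∀ (X : Type) [Countable X] (Q : Set (Fin (ar' r) → X)) (φ : X → ℕ),
        (∀ w ∈ Q, (fun j => φ (w j)) ∈ 𝔹' r) →
        ∃ e : X → ℕ, Injective e ∧ ∀ w ∈ Q, (fun j => e (w j)) ∈ 𝔹' r) ∧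
      (PPConstructsK3 (fun _ : Fin 1 => 𝔹' r) → PPConstructsK3 (fun i => 𝔹 (s i))) ∧
      ∃ g : Inst → Inst, Poly g ∧ ∀ I, CSPOf (fun i => 𝔹 (s i)) I ↔
        CSPOf (fun _ : Fin 1 => 𝔹' r) (g I) := by
  classical
  let m := k + 1
  have hm : 0 < m := Nat.succ_pos k
  obtain ⟨f, hf⟩ := exists_ext (m := m) (A := B)
  let 𝔸 : Str (Fin n) (fun i => ar (s i)) B := fun i => 𝔹 (s i)
  let ε : Blk (fun i => ar (s i)) ≃ Fin (Fintype.card (Blk (fun i => ar (s i)))) :=
    Fintype.equivFin _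
  let R : Str (Fin 1) (fun _ => Fintype.card (Blk (fun i => ar (s i))) * m) ℕ :=
    fun _ => single ε f 𝔸
  have hinv : ∀ j, Invar (autGroup (lift f 𝔹)) (R j) := fun _ => single_invar
  have hle : autGroup (lift f 𝔹) ≤ autGroup (expand (lift f 𝔹) R) := autGroup_le_expand hinv
  refine ⟨Option σ ⊕ Fin 1, inferInstance, _, expand (lift f 𝔹) R, Sum.inr 0,
    homogeneous_expand (lift_homogeneous hf hhom) R hinv,
    finitelyBounded_expand (lift_homogeneous hf hhom) (lift_finitelyBounded hm hf hfb) R hinv,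
    (lift_transitive hf 𝔹 (Nat.lt_succ_self k)).mono hle, (lift_noAlgebraicity hf 𝔹).mono hle,
    ?_, ?_, ?_, ?_, ?_⟩
  · intro d hd
    obtain ⟨h, hh, hh'⟩ := exists_pol hm hf hd
    refine ⟨h, hh, ?_⟩
    rintro (i | j) v hv
    · exact lift_pol (𝔹 := 𝔹) hd hh hh' i v hv
    · exact single_pol (𝔸 := 𝔸) (ε := ε) hd hh hh' v hv
  · intro w hw
    exact hw.1
  · intro X _ Q φ hφ
    exact single_injective_hom (𝔸 := 𝔸) (ε := ε) hm hf Q φ hφ
  · intro h
    exact pp_k3 hm hf (𝔸 := 𝔸) (𝔸' := R) (fun _ => single_blockForm) h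
  · exact ⟨redOf m ε 𝔸, poly_redOf m ε 𝔸, fun I => csp_red hm hf 𝔸 ε I⟩

/-- the constraint satisfaction problems of structures with an empty domain are in `P` -/
theorem csp_empty {n : ℕ} {ar : Fin n → ℕ} {A : Type} [IsEmpty A] (𝔸 : Str (Fin n) ar A) :
    InPP (CSPOf 𝔸) := by
  classical
  let good : List ℕ := ((List.finRange n).filter (fun i => (𝔸 i).Nonempty)).map Fin.val
  have hgood : ∀ i, i ∈ good ↔ ∃ j : Fin n, (𝔸 j).Nonempty ∧ j.1 = i := by
    intro i
    simp [good]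
  refine inPP_of (d := fun I => okI (List.ofFn ar) [] I && (I.1.isEmpty &&
    I.2.all (fun p => decide (p.1 ∈ good)))) ?_ ?_
  · have h3 : Poly (okI (List.ofFn ar) []) := poly_okI _ _
    fun_prop
  · intro I
    simp only [Bool.and_eq_true, okI_iff, List.isEmpty_iff, List.all_eq_true, decide_eq_true_eq]
    constructor
    · rintro ⟨hI, h, hh⟩
      have h0 : I.1 = [] := by
        rw [← List.length_eq_zero_iff]
        by_contra hne
        exact IsEmpty.false (h ⟨0, Nat.pos_of_ne_zero hne⟩)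
      refine ⟨⟨hI, by simp⟩, h0, fun p hp => ?_⟩
      have h1 : p.2 = [] := by
        rw [List.eq_nil_iff_forall_not_mem]
        intro a ha
        have := (hI p hp).2 a ha
        rw [h0] at this
        simp at this
      obtain ⟨j, v, hj, hv, _⟩ := hh p.1 [] (by
        simp only [List.map_nil]
        rw [← h1]
        exact hp)
      rw [hgood]
      exact ⟨j, ⟨v, hv⟩, hj⟩
    · rintro ⟨⟨hI, -⟩, h0, hall⟩
      refine ⟨hI, ?_⟩
      have he : IsEmpty (Fin I.1.length) := by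
        rw [h0]
        exact Fin.isEmpty
      refine ⟨fun x => (he.false x).elim, ?_⟩
      intro i l hl
      have hl0 : l = [] := by
        rw [List.eq_nil_iff_forall_not_mem]
        intro a _
        exact he.false a
      subst hl0
      obtain ⟨j, ⟨v, hv⟩, hj⟩ := (hgood i).1 (hall _ hl)
      refine ⟨j, v, hj, hv, ?_⟩
      have har : ar j = 0 := by
        by_contra hne
        exact IsEmpty.false (v ⟨0, Nat.pos_of_ne_zero hne⟩)
      rw [List.map_nil, ← List.length_eq_zero_iff, List.length_ofFn]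
      exact har

end Pool.Agent.E8helper92.BP
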