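import Pool.Agent.E8helper92.BP.Real
import Pool.Agent.W994.AR.Hom

/-!
# pp-constructions of `K_3` descend from the generic set
-/

set_option autoImplicit false

namespace Pool.Agent.E8helper92.BP

open Function Pool.Agent.W994.AR

variable {m : ℕ} {A : Type}

/-- `PPConstructsK3` with an arbitrary finite nonempty type of coordinates -/
theorem k3_of_finite {ι : Type} {ar : ι → ℕ} {𝔸 : Str ι ar A} {D : Type} [Finite D] [Nonempty D]
    {E : Set (D ⊕ D → A)} (hE : PP 𝔸 E) (p : Fin 3 → D → A)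
    (hp : ∀ i j, i ≠ j → Sum.elim (p i) (p j) ∈ E) (c : (D → A) → Fin 3)
    (hc : ∀ x y, Sum.elim x y ∈ E → c x ≠ c y) : PPConstructsK3 𝔸 := by
  obtain ⟨n, ⟨ε⟩⟩ := Finite.exists_equiv_fin D
  have hn : 1 ≤ n := by
    rcases Nat.eq_zero_or_pos n with rfl | h
    · exact (ε (Classical.arbitrary D)).elim0
    · exact h
  refine ⟨n, {z | z ∘ Sum.map ε ε ∈ E}, hn, (hE.subst (Sum.map ε ε)).toPPDef,
    ⟨fun i x => p i (ε.symm x), ?_⟩, ⟨fun x => c (fun d => x (ε d)), ?_⟩⟩
  · intro i j hij
    have h1 : (Sum.elim (fun x => p i (ε.symm x)) (fun x => p j (ε.symm x)) ∘ Sum.map ε ε) =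
        Sum.elim (p i) (p j) := by
      funext x
      cases x <;> simp
    show _ ∈ E
    rw [h1]
    exact hp i j hij
  · intro x y hxy
    apply hc
    have h1 : (Sum.elim x y ∘ Sum.map ε ε) = Sum.elim (fun d => x (ε d)) (fun d => y (ε d)) := by
      funext z
      cases z <;> rfl
    rw [← h1]
    exact hxy

/-- relations on the generic set which consist of injective tuples and are given by a pp-definable
relation between the values of `f` at blocks of `m` coordinates -/
def BlockForm {ι : Type} {ar : ι → ℕ} (f : (Fin m → ℕ) → A) (𝔸 : Str ι ar A) {M : ℕ}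
    (Q : Set (Fin M → ℕ)) : Prop :=
  ∃ (J : Type) (_ : Finite J) (b : J → Fin m → Fin M) (Ψ : Set (J → A)),
    (∀ j, Injective (b j)) ∧ PP 𝔸 Ψ ∧
      ∀ w, w ∈ Q ↔ Injective w ∧ (fun j => f (fun a => w (b j a))) ∈ Ψ

theorem perm3 : ∀ i j i' j' : Fin 3, i ≠ j → i' ≠ j' →
    ∃ τ : Equiv.Perm (Fin 3), τ i = i' ∧ τ j = j' := by decide

theorem third : ∀ i : Fin 3, ∃ j, j ≠ i := by decide

theorem third2 : ∀ i j : Fin 3, ∃ k, k ≠ i ∧ k ≠ j := by decide

theorem pp_k3 (hm : 0 < m) {f : (Fin m → ℕ) → A} (hf : Ext f) [Countable A] {ι ι' : Type}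
    {ar : ι → ℕ} {ar' : ι' → ℕ} {𝔸 : Str ι ar A} {𝔸' : Str ι' ar' ℕ}
    (hform : ∀ i, BlockForm f 𝔸 (𝔸' i)) (h : PPConstructsK3 𝔸') : PPConstructsK3 𝔸 := by
  classical
  choose J hJ b Ψ hb hΨ hQ using hform
  obtain ⟨n, E, hn, ⟨q, Φ, hE⟩, ⟨p, hp⟩, ⟨c, hc⟩⟩ := h
  let Θ := {θ : Fin 3 × Fin 3 // θ.1 ≠ θ.2}
  have hu : ∀ θ : Θ, ∃ u : Fin q → ℕ, ∀ φ ∈ Φ, φ.Holds 𝔸' (Sum.elim (Sum.elim (p θ.1.1) (p θ.1.2)) u) :=
    fun θ => (hE _).1 (hp _ _ θ.2)
  choose u hu using hu
  let Var := (Fin n ⊕ Fin n) ⊕ Fin q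
  let val : Θ → Var → ℕ := fun θ => Sum.elim (Sum.elim (p θ.1.1) (p θ.1.2)) (u θ)
  let ks : Setoid Var := Setoid.ker (fun x : Var => fun θ => val θ x)
  let U := Quotient ks
  let cl : Var → U := fun x => Quotient.mk ks x
  have hcl : ∀ x y : Var, cl x = cl y ↔ ∀ θ, val θ x = val θ y := by
    intro x y
    constructor
    · intro h θ
      exact congrFun (Quotient.exact h) θ
    · intro h
      exact Quotient.sound (funext h)
  let ks' : Setoid (Fin n) := Setoid.ker (fun a : Fin n => fun s => p s a)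
  let S := Quotient ks'
  let cs : Fin n → S := fun a => Quotient.mk ks' a
  have hcs : ∀ a b : Fin n, cs a = cs b ↔ ∀ s, p s a = p s b := by
    intro a b
    constructor
    · intro h s
      exact congrFun (Quotient.exact h) s
    · intro h
      exact Quotient.sound (funext h)
  have hXv : ∀ a b : Fin n, cl (Sum.inl (Sum.inl a)) = cl (Sum.inl (Sum.inl b)) ↔ cs a = cs b := by
    intro a b
    rw [hcl, hcs]
    constructor
    · intro h s
      obtain ⟨j, hj⟩ := third s
      exact h ⟨(s, j), hj.symm⟩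
    · intro h θ
      exact h _
  have hYv : ∀ a b : Fin n, cl (Sum.inl (Sum.inr a)) = cl (Sum.inl (Sum.inr b)) ↔ cs a = cs b := by
    intro a b
    rw [hcl, hcs]
    constructor
    · intro h s
      obtain ⟨j, hj⟩ := third s
      exact h ⟨(j, s), hj⟩
    · intro h θ
      exact h _
  have hXYv : ∀ a b : Fin n, cl (Sum.inl (Sum.inl a)) = cl (Sum.inl (Sum.inr b)) → cs a = cs b := by
    intro a b
    rw [hcl, hcs]
    intro h s
    have h' : ∀ s t : Fin 3, s ≠ t → p s a = p t b := fun s t hst => h ⟨(s, t), hst⟩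
    obtain ⟨t, ht⟩ := third s
    obtain ⟨r, hr1, hr2⟩ := third2 s t
    rw [h' s t ht.symm, ← h' r t hr2, h' r s hr1]
  let X : S → U := Quotient.lift (fun a => cl (Sum.inl (Sum.inl a)))
    (fun a b h => (hXv a b).2 (Quotient.sound h))
  let Y : S → U := Quotient.lift (fun a => cl (Sum.inl (Sum.inr a)))
    (fun a b h => (hYv a b).2 (Quotient.sound h))
  have hX : Injective X := by
    intro x y
    refine Quotient.inductionOn₂ x y ?_
    intro a b h
    exact (hXv a b).1 h
  have hY : Injective Y := by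
    intro x y
    refine Quotient.inductionOn₂ x y ?_
    intro a b h
    exact (hYv a b).1 h
  have hXY : ∀ s s', X s = Y s' → s = s' := by
    intro x y
    refine Quotient.inductionOn₂ x y ?_
    intro a b h
    exact hXYv a b h
  have hScl : ∀ s : S, ∃ a, cs a = s := fun s => Quotient.exists_rep s
  have hUfin : Finite U := inferInstance
  have hSfin : Finite S := inferInstance
  -- injectivity of the variables of a relational atom
  have hatom : ∀ i (x : Fin (ar' i) → Var), Atom.rel i x ∈ Φ → ∀ k k', cl (x k) = cl (x k') → k = k' := by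
    intro i x hφ k k' hk
    have h0 : (0 : Fin 3) ≠ 1 := by decide
    have h1 := (hQ i _).1 (hu ⟨(0, 1), h0⟩ _ hφ)
    exact h1.1 ((hcl _ _).1 hk ⟨(0, 1), h0⟩)
  -- the condition of an atom
  let cond : Atom ι' ar' Var → ((Fin m → U) → A) → Prop := fun φ γ => match φ with
    | .eq _ _ => True
    | .rel i x => (fun j => γ (fun a => cl (x (b i j a)))) ∈ Ψ i
  let D := Fin m → S
  have hS : Nonempty S := ⟨cs ⟨0, hn⟩⟩
  have hD : Nonempty D := inferInstance
  have hDfin : Finite D := inferInstance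
  let ψ : Set (D ⊕ D → A) := {z | ∃ γ : (Fin m → U) → A, Sum.elim z γ ∈
    ({y : (D ⊕ D) ⊕ (Fin m → U) → A |
      (∀ s ∈ {s : Fin m → S | Injective s}, y ∈ {y | y (Sum.inr (fun a => X (s a))) = y (Sum.inl (Sum.inl s))}) ∧
      (∀ s ∈ {s : Fin m → S | Injective s}, y ∈ {y | y (Sum.inr (fun a => Y (s a))) = y (Sum.inl (Sum.inr s))}) ∧
      (∀ φ ∈ {φ | φ ∈ Φ}, y ∈ {y | cond φ (fun u => y (Sum.inr u))})} : Set _)}
  have hψ : PP 𝔸 ψ := by
    apply PP.ex
    refine (PP.iInter _ (Set.toFinite _) _ (fun s _ => PP.eq _ _)).inter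
      ((PP.iInter _ (Set.toFinite _) _ (fun s _ => PP.eq _ _)).inter
        (PP.iInter _ (List.finite_toSet Φ) _ (fun φ _ => ?_)))
    cases φ with
    | eq x y =>
      convert PP.univ using 1
      ext z
      simp [cond]
    | rel i x =>
      exact (hΨ i).subst (fun j => Sum.inr (fun a => cl (x (b i j a))))
  have hψmem : ∀ α β : D → A, Sum.elim α β ∈ ψ ↔ ∃ γ : (Fin m → U) → A,
      (∀ s : Fin m → S, Injective s → γ (fun a => X (s a)) = α s) ∧
      (∀ s : Fin m → S, Injective s → γ (fun a => Y (s a)) = β s) ∧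
      ∀ φ ∈ Φ, cond φ γ := fun α β => Iff.rfl
  -- realisation
  have hR : ∀ (I : Type) [Countable I] (α : I → D → A) (dir : I → I → Prop),
      (∀ i j, dir i j → ¬ dir j i) → (∀ i j, dir i j → Sum.elim (α i) (α j) ∈ ψ) →
      ∃ t : I → Fin n → ℕ, ∀ i j, dir i j → Sum.elim (t i) (t j) ∈ E := by
    intro I _ α dir hasym hdir
    let a₀ : A := f (fun _ => 0)
    have hγ : ∀ i j, ∃ γ : (Fin m → U) → A, dir i j →
        (∀ s : Fin m → S, Injective s → γ (fun a => X (s a)) = α i s) ∧
        (∀ s : Fin m → S, Injective s → γ (fun a => Y (s a)) = α j s) ∧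
        ∀ φ ∈ Φ, cond φ γ := by
      intro i j
      by_cases h : dir i j
      · obtain ⟨γ, hγ⟩ := (hψmem _ _).1 (hdir i j h)
        exact ⟨γ, fun _ => hγ⟩
      · exact ⟨fun _ => a₀, fun h' => absurd h' h⟩
    choose γ hγ using hγ
    obtain ⟨t, e, he⟩ := realise hm hf X Y hX hY hXY dir hasym α γ (fun i j h => (hγ i j h).1)
      (fun i j h => (hγ i j h).2.1)
    refine ⟨fun i a => t i (cs a), fun i j h => ?_⟩
    obtain ⟨he1, he2, he3, he4⟩ := he i j h
    rw [hE]
    refine ⟨fun k => e i j (cl (Sum.inr k)), ?_⟩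
    have h1 : (Sum.elim (Sum.elim (fun a => t i (cs a)) (fun a => t j (cs a)))
        (fun k => e i j (cl (Sum.inr k)))) = fun x => e i j (cl x) := by
      funext x
      rcases x with (x | x) | x
      · exact (he2 (cs x)).symm
      · exact (he3 (cs x)).symm
      · rfl
    rw [h1]
    intro φ hφ
    cases φ with
    | eq x y =>
      show e i j (cl x) = e i j (cl y)
      congr 1
      rw [hcl]
      intro θ
      exact hu θ _ hφ
    | rel k x =>
      show (fun l => e i j (cl (x l))) ∈ 𝔸' k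
      rw [hQ]
      refine ⟨fun l l' hl => hatom k x hφ l l' (he1 hl), ?_⟩
      have h2 := (hγ i j h).2.2 _ hφ
      have h3 : (fun j' => f (fun a => e i j (cl (x (b k j' a))))) =
          fun j' => γ i j (fun a => cl (x (b k j' a))) := by
        funext j'
        exact he4 _ (fun a a' haa => hb k j' (hatom k x hφ _ _ haa))
      rw [h3]
      exact h2
  -- the triangle
  obtain ⟨h, hh, hh'⟩ := hf.embed' hm (X := Equiv.Perm (Fin 3) → ℕ) (fun w => f (fun a => w a 1))
  let tw : Equiv.Perm (Fin 3) → Θ → Θ := fun τ θ => ⟨(τ θ.1.1, τ θ.1.2), fun e => θ.2 (τ.injective e)⟩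
  let T : Fin 3 → D → A := fun i s => f (fun a => h (fun τ => p (τ i) (s a).out))
  have hout : ∀ (i : Fin 3) (a : Fin n), p i (cs a).out = p i a := by
    intro i a
    exact congrFun (Quotient.exact (Quotient.out_eq (cs a))) i
  have hT : ∀ i j, i ≠ j → Sum.elim (T i) (T j) ∈ ψ := by
    intro i j hij
    let θ : Θ := ⟨(i, j), hij⟩
    let B : U → ℕ := Quotient.lift (fun x => h (fun τ => val (tw τ θ) x)) (by
      intro x y hxy
      congr 1
      funext τ
      exact congrFun hxy _)
    have hBcl : ∀ x, B (cl x) = h (fun τ => val (tw τ θ) x) := fun x => rfl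
    have hBX : ∀ s, B (X s) = h (fun τ => p (τ i) s.out) := by
      intro s
      obtain ⟨a, rfl⟩ := hScl s
      simp only [hout]
      rfl
    have hBY : ∀ s, B (Y s) = h (fun τ => p (τ j) s.out) := by
      intro s
      obtain ⟨a, rfl⟩ := hScl s
      simp only [hout]
      rfl
    rw [hψmem]
    refine ⟨fun u => f (fun a => B (u a)), ?_, ?_, ?_⟩
    · intro s _
      simp only [hBX]
      rfl
    · intro s _
      simp only [hBY]
      rfl
    · intro φ hφ
      cases φ with
      | eq x y => trivial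
      | rel k x =>
        show (fun l => f (fun a => B (cl (x (b k l a))))) ∈ Ψ k
        have h1 := ((hQ k _).1 (hu θ _ hφ))
        have h2 : (fun l => f (fun a => B (cl (x (b k l a))))) =
            fun l => f (fun a => val θ (x (b k l a))) := by
          funext l
          have h3 := hh' (fun a => fun τ => val (tw τ θ) (x (b k l a))) (by
            intro a a' haa
            have h4 := congrFun haa 1
            exact hb k l (h1.1 h4))
          exact h3
        rw [h2]
        exact h1.2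
  -- no loops
  have hloop : ∀ α : D → A, Sum.elim α α ∉ ψ := by
    intro α hα
    obtain ⟨t, ht⟩ := hR (Fin 4) (fun _ => α) (fun i j => i < j) (fun i j h => not_lt.2 h.le)
      (fun _ _ _ => hα)
    have h1 : Injective (fun i => c (t i)) := by
      intro i j hij
      by_contra hne
      rcases lt_or_gt_of_ne hne with h | h
      · exact hc _ _ (ht i j h) hij
      · exact hc _ _ (ht j i h) hij.symm
    have h2 := Fintype.card_le_of_injective _ h1
    simp at h2
  -- the colouring
  obtain ⟨enc, henc⟩ := exists_injective_nat (D → A)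
  obtain ⟨t, ht⟩ := hR (D → A) id (fun α β => Sum.elim α β ∈ ψ ∧ (enc α < enc β ∨ Sum.elim β α ∉ ψ))
    (by
      rintro α β ⟨h1, h2⟩ ⟨h3, h4⟩
      rcases h2 with h2 | h2
      · rcases h4 with h4 | h4
        · omega
        · exact h4 h1
      · exact h2 h3) (fun _ _ h => h.1)
  refine k3_of_finite hψ T hT (fun α => c (t α)) ?_
  intro α β hαβ
  by_cases h1 : enc α < enc β ∨ Sum.elim β α ∉ ψ
  · exact hc _ _ (ht α β ⟨hαβ, h1⟩)
  · push Not at h1
    have hne : α ≠ β := by
      rintro rfl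
      exact hloop _ hαβ
    have h2 : enc β < enc α := lt_of_le_of_ne h1.1 (fun h => hne (henc h.symm))
    exact (hc _ _ (ht β α ⟨h1.2, Or.inl h2⟩)).symm

end Pool.Agent.E8helper92.BP
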