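import Pool.Agent.E8helper92.BP.Gen

/-!
# Realisation of families of types in the generic set
-/

set_option autoImplicit false

namespace Pool.Agent.E8helper92.BP

open Function

section tokens

variable {m : ℕ} {A S U I : Type}

/-- tokens: shared points, points belonging to one index, points belonging to a pair of indices -/
abbrev Tok (m : ℕ) (A S U I : Type) : Type :=
  (S × ((Fin m → S) → A)) ⊕ ((I × S) ⊕ (I × I × U))

open Classical in
/-- the values at the tuples of shared points -/
noncomputable def chi (a₀ : A) (X Y : S → U) (α : (Fin m → S) → A) : (Fin m → S) → A :=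
  fun s => if Injective s ∧ ∀ a, X (s a) = Y (s a) then α s else a₀

open Classical in
/-- the points of the index `i` -/
noncomputable def base (a₀ : A) (X Y : S → U) (α : I → (Fin m → S) → A) (i : I) (s : S) :
    Tok m A S U I :=
  if X s = Y s then Sum.inl (s, chi a₀ X Y (α i)) else Sum.inr (Sum.inl (i, s))

open Classical in
/-- the points of the pair of indices `i, j` -/
noncomputable def emb (a₀ : A) (X Y : S → U) (α : I → (Fin m → S) → A) (i j : I) (u : U) :
    Tok m A S U I :=
  if hx : ∃ s, X s = u then base a₀ X Y α i hx.choose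
  else if hy : ∃ s, Y s = u then base a₀ X Y α j hy.choose
  else Sum.inr (Sum.inr (i, j, u))

variable {a₀ : A} {X Y : S → U} {α : I → (Fin m → S) → A}

theorem base_const {i : I} {s : S} (h : X s = Y s) :
    base a₀ X Y α i s = Sum.inl (s, chi a₀ X Y (α i)) := if_pos h

theorem base_nonconst {i : I} {s : S} (h : X s ≠ Y s) :
    base a₀ X Y α i s = Sum.inr (Sum.inl (i, s)) := if_neg h

theorem base_inj {i : I} {s s' : S} (h : base a₀ X Y α i s = base a₀ X Y α i s') : s = s' := by
  by_cases h1 : X s = Y s <;> by_cases h2 : X s' = Y s'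
  · rw [base_const h1, base_const h2] at h
    simp only [Sum.inl.injEq, Prod.mk.injEq] at h
    exact h.1
  · rw [base_const h1, base_nonconst h2] at h
    simp at h
  · rw [base_nonconst h1, base_const h2] at h
    simp at h
  · rw [base_nonconst h1, base_nonconst h2] at h
    simpa using h

theorem emb_X (hX : Injective X) (i j : I) (s : S) :
    emb a₀ X Y α i j (X s) = base a₀ X Y α i s := by
  have hx : ∃ s', X s' = X s := ⟨s, rfl⟩
  unfold emb
  rw [dif_pos hx, hX hx.choose_spec]

theorem emb_Y (hX : Injective X) (hY : Injective Y) (hXY : ∀ s s', X s = Y s' → s = s') {i j : I}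
    (hchi : chi a₀ X Y (α i) = chi a₀ X Y (α j)) (s : S) :
    emb a₀ X Y α i j (Y s) = base a₀ X Y α j s := by
  by_cases hx : ∃ s', X s' = Y s
  · obtain ⟨s', hs'⟩ := hx
    obtain rfl := hXY _ _ hs'
    rw [← hs', emb_X hX, base_const hs', base_const hs', hchi]
  · have hy : ∃ s', Y s' = Y s := ⟨s, rfl⟩
    unfold emb
    rw [dif_neg hx, dif_pos hy, hY hy.choose_spec]

theorem emb_other {i j : I} {u : U} (h1 : ∀ s, X s ≠ u) (h2 : ∀ s, Y s ≠ u) :
    emb a₀ X Y α i j u = Sum.inr (Sum.inr (i, j, u)) := by
  unfold emb
  rw [dif_neg (fun ⟨s, h⟩ => h1 s h), dif_neg (fun ⟨s, h⟩ => h2 s h)]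

theorem cases_U (X Y : S → U) (u : U) : (∃ s, u = X s) ∨ (∃ s, u = Y s) ∨
    ((∀ s, X s ≠ u) ∧ ∀ s, Y s ≠ u) := by
  by_cases h1 : ∃ s, u = X s
  · exact Or.inl h1
  · by_cases h2 : ∃ s, u = Y s
    · exact Or.inr (Or.inl h2)
    · refine Or.inr (Or.inr ⟨fun s h => h1 ⟨s, h.symm⟩, fun s h => h2 ⟨s, h.symm⟩⟩)

theorem emb_inj (hX : Injective X) (hY : Injective Y) (hXY : ∀ s s', X s = Y s' → s = s') {i j : I}
    (hij : i ≠ j) (hchi : chi a₀ X Y (α i) = chi a₀ X Y (α j)) :
    Injective (emb a₀ X Y α i j) := by
  have hbb : ∀ s s', base a₀ X Y α i s = base a₀ X Y α j s' → X s = Y s' := by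
    intro s s' h
    by_cases h1 : X s = Y s <;> by_cases h2 : X s' = Y s'
    · rw [base_const h1, base_const h2] at h
      simp only [Sum.inl.injEq, Prod.mk.injEq] at h
      rw [h1, h.1]
    · rw [base_const h1, base_nonconst h2] at h
      simp at h
    · rw [base_nonconst h1, base_const h2] at h
      simp at h
    · rw [base_nonconst h1, base_nonconst h2] at h
      simp only [Sum.inr.injEq, Sum.inl.injEq, Prod.mk.injEq] at h
      exact absurd h.1 hij
  have hbo : ∀ (k : I) s u, base a₀ X Y α k s ≠ Sum.inr (Sum.inr (i, j, u)) := by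
    intro k s u h
    by_cases h1 : X s = Y s
    · rw [base_const h1] at h
      simp at h
    · rw [base_nonconst h1] at h
      simp at h
  intro u u' h
  rcases cases_U X Y u with ⟨s, rfl⟩ | ⟨s, rfl⟩ | ⟨h1, h2⟩ <;>
    rcases cases_U X Y u' with ⟨s', rfl⟩ | ⟨s', rfl⟩ | ⟨h1', h2'⟩
  · rw [emb_X hX, emb_X hX] at h
    rw [base_inj h]
  · rw [emb_X hX, emb_Y hX hY hXY hchi] at h
    exact hbb _ _ h
  · rw [emb_X hX, emb_other h1' h2'] at h
    exact absurd h (hbo _ _ _)
  · rw [emb_X hX, emb_Y hX hY hXY hchi] at h
    exact (hbb _ _ h.symm).symm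
  · rw [emb_Y hX hY hXY hchi, emb_Y hX hY hXY hchi] at h
    rw [base_inj h]
  · rw [emb_Y hX hY hXY hchi, emb_other h1' h2'] at h
    exact absurd h (hbo _ _ _)
  · rw [emb_X hX, emb_other h1 h2] at h
    exact absurd h.symm (hbo _ _ _)
  · rw [emb_Y hX hY hXY hchi, emb_other h1 h2] at h
    exact absurd h.symm (hbo _ _ _)
  · rw [emb_other h1 h2, emb_other h1' h2'] at h
    simpa using h

end tokens

variable {m : ℕ} {A : Type}

/-- Realisation of types: a family of types over index set `I`, with prescribed joint types along an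
asymmetric relation. -/
theorem realise (hm : 0 < m) {f : (Fin m → ℕ) → A} (hf : Ext f) [Countable A] {S U I : Type}
    [Finite S] [Countable U] [Countable I] (X Y : S → U) (hX : Injective X) (hY : Injective Y)
    (hXY : ∀ s s', X s = Y s' → s = s') (dir : I → I → Prop) (hdir : ∀ i j, dir i j → ¬ dir j i)
    (α : I → (Fin m → S) → A) (γ : I → I → (Fin m → U) → A)
    (hγX : ∀ i j, dir i j → ∀ s : Fin m → S, Injective s → γ i j (fun a => X (s a)) = α i s)
    (hγY : ∀ i j, dir i j → ∀ s : Fin m → S, Injective s → γ i j (fun a => Y (s a)) = α j s) :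
    ∃ (t : I → S → ℕ) (e : I → I → U → ℕ), ∀ i j, dir i j → Injective (e i j) ∧
      (∀ s, e i j (X s) = t i s) ∧ (∀ s, e i j (Y s) = t j s) ∧
      ∀ u : Fin m → U, Injective u → f (fun a => e i j (u a)) = γ i j u := by
  classical
  let a₀ : A := f (fun _ => 0)
  have hne : ∀ i j, dir i j → i ≠ j := by
    rintro i j h rfl
    exact hdir _ _ h h
  have hchi : ∀ i j, dir i j → chi a₀ X Y (α i) = chi a₀ X Y (α j) := by
    intro i j h
    funext s
    unfold chi
    split_ifs with hs
    · rw [← hγX i j h s hs.1, ← hγY i j h s hs.1]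
      congr 1
      funext a
      exact hs.2 a
    · rfl
  have hinj : ∀ i j, dir i j → Injective (emb a₀ X Y α i j) := fun i j h =>
    emb_inj hX hY hXY (hne i j h) (hchi i j h)
  -- tuples of points of one index
  have L4 : ∀ i j p (u : Fin m → U) (s : Fin m → S), dir i j → Injective s →
      (∀ a, emb a₀ X Y α i j (u a) = base a₀ X Y α p (s a)) → γ i j u = α p s := by
    intro i j p u s h hs hu
    by_cases hc : ∀ a, X (s a) = Y (s a)
    · have h1 : ∀ a, u a = X (s a) ∧ chi a₀ X Y (α i) = chi a₀ X Y (α p) := by
        intro a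
        have h2 := hu a
        rw [base_const (hc a)] at h2
        rcases cases_U X Y (u a) with ⟨s', hs'⟩ | ⟨s', hs'⟩ | ⟨h3, h4⟩
        · rw [hs', emb_X hX] at h2
          by_cases h5 : X s' = Y s'
          · rw [base_const h5] at h2
            simp only [Sum.inl.injEq, Prod.mk.injEq] at h2
            rw [hs', h2.1]
            exact ⟨rfl, h2.2⟩
          · rw [base_nonconst h5] at h2
            simp at h2
        · rw [hs', emb_Y hX hY hXY (hchi i j h)] at h2
          by_cases h5 : X s' = Y s'
          · rw [base_const h5] at h2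
            simp only [Sum.inl.injEq, Prod.mk.injEq] at h2
            rw [hs', ← h5, h2.1]
            exact ⟨rfl, (hchi i j h).trans h2.2⟩
          · rw [base_nonconst h5] at h2
            simp at h2
        · rw [emb_other h3 h4] at h2
          simp at h2
      have h2 : u = fun a => X (s a) := funext fun a => (h1 a).1
      rw [h2, hγX i j h s hs]
      have h3 := congrFun (h1 ⟨0, hm⟩).2 s
      unfold chi at h3
      rw [if_pos ⟨hs, hc⟩, if_pos ⟨hs, hc⟩] at h3
      exact h3
    · push Not at hc
      obtain ⟨b, hb⟩ := hc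
      have h2 := hu b
      rw [base_nonconst hb] at h2
      have h6 : p = i ∨ p = j := by
        rcases cases_U X Y (u b) with ⟨s', hs'⟩ | ⟨s', hs'⟩ | ⟨h3, h4⟩
        · rw [hs', emb_X hX] at h2
          by_cases h5 : X s' = Y s'
          · rw [base_const h5] at h2
            simp at h2
          · rw [base_nonconst h5] at h2
            simp only [Sum.inr.injEq, Sum.inl.injEq, Prod.mk.injEq] at h2
            exact Or.inl h2.1.symm
        · rw [hs', emb_Y hX hY hXY (hchi i j h)] at h2
          by_cases h5 : X s' = Y s'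
          · rw [base_const h5] at h2
            simp at h2
          · rw [base_nonconst h5] at h2
            simp only [Sum.inr.injEq, Sum.inl.injEq, Prod.mk.injEq] at h2
            exact Or.inr h2.1.symm
        · rw [emb_other h3 h4] at h2
          simp at h2
      rcases h6 with rfl | rfl
      · have h7 : u = fun a => X (s a) := by
          funext a
          apply hinj _ _ h
          rw [emb_X hX]
          exact hu a
        rw [h7]
        exact hγX _ _ h s hs
      · have h7 : u = fun a => Y (s a) := by
          funext a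
          apply hinj _ _ h
          rw [emb_Y hX hY hXY (hchi _ _ h)]
          exact hu a
        rw [h7]
        exact hγY _ _ h s hs
  -- consistency
  have hC : ∀ i j k l (u u' : Fin m → U), dir i j → dir k l → Injective u → Injective u' →
      (∀ a, emb a₀ X Y α i j (u a) = emb a₀ X Y α k l (u' a)) → γ i j u = γ k l u' := by
    intro i j k l u u' h h' hu hu' huu
    by_cases hp : ∃ p, ∃ s : Fin m → S, ∀ a, emb a₀ X Y α i j (u a) = base a₀ X Y α p (s a)
    · obtain ⟨p, s, hs⟩ := hp
      have hsi : Injective s := by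
        intro a b hab
        apply hu
        apply hinj _ _ h
        rw [hs a, hs b, hab]
      rw [L4 i j p u s h hsi hs, L4 k l p u' s h' hsi (fun a => (huu a).symm.trans (hs a))]
    · have hpn : ∀ p, ∃ a, ∀ s, emb a₀ X Y α i j (u a) ≠ base a₀ X Y α p s := by
        intro p
        by_contra hcon
        push Not at hcon
        choose s hs using hcon
        exact hp ⟨p, s, hs⟩
      have hmem : ∀ (q : I) (s : S) (a : Fin m), emb a₀ X Y α i j (u a) = Sum.inr (Sum.inl (q, s)) →
          q = k ∨ q = l := by
        intro q s a h2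
        rw [huu a] at h2
        rcases cases_U X Y (u' a) with ⟨s', hs'⟩ | ⟨s', hs'⟩ | ⟨h3, h4⟩
        · rw [hs', emb_X hX] at h2
          by_cases h5 : X s' = Y s'
          · rw [base_const h5] at h2
            simp at h2
          · rw [base_nonconst h5] at h2
            simp only [Sum.inr.injEq, Sum.inl.injEq, Prod.mk.injEq] at h2
            exact Or.inl h2.1.symm
        · rw [hs', emb_Y hX hY hXY (hchi _ _ h')] at h2
          by_cases h5 : X s' = Y s'
          · rw [base_const h5] at h2
            simp at h2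
          · rw [base_nonconst h5] at h2
            simp only [Sum.inr.injEq, Sum.inl.injEq, Prod.mk.injEq] at h2
            exact Or.inr h2.1.symm
        · rw [emb_other h3 h4] at h2
          simp at h2
      have hoth : ∀ a, (∀ s, X s ≠ u a) → (∀ s, Y s ≠ u a) → i = k ∧ j = l := by
        intro a h1 h2
        have h3 := huu a
        rw [emb_other h1 h2] at h3
        rcases cases_U X Y (u' a) with ⟨s', hs'⟩ | ⟨s', hs'⟩ | ⟨h4, h5⟩
        · rw [hs', emb_X hX] at h3
          by_cases h5 : X s' = Y s'
          · rw [base_const h5] at h3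
            simp at h3
          · rw [base_nonconst h5] at h3
            simp at h3
        · rw [hs', emb_Y hX hY hXY (hchi _ _ h')] at h3
          by_cases h5 : X s' = Y s'
          · rw [base_const h5] at h3
            simp at h3
          · rw [base_nonconst h5] at h3
            simp at h3
        · rw [emb_other h4 h5] at h3
          simp only [Sum.inr.injEq, Prod.mk.injEq] at h3
          exact ⟨h3.1, h3.2.1⟩
      have hkl : i = k ∧ j = l := by
        obtain ⟨a, ha⟩ := hpn i
        obtain ⟨b, hb⟩ := hpn j
        rcases cases_U X Y (u a) with ⟨s, hs⟩ | ⟨s, hs⟩ | ⟨h1, h2⟩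
        · exact absurd (by rw [hs, emb_X hX]) (ha s)
        · rcases cases_U X Y (u b) with ⟨s', hs'⟩ | ⟨s', hs'⟩ | ⟨h1, h2⟩
          · have h3 : X s ≠ Y s := by
              intro h3
              apply ha s
              rw [hs, ← h3, emb_X hX]
            have h4 : X s' ≠ Y s' := by
              intro h3
              apply hb s'
              rw [hs', h3, emb_Y hX hY hXY (hchi _ _ h)]
            have h5 := hmem j s a (by
              rw [hs, emb_Y hX hY hXY (hchi _ _ h), base_nonconst h3])
            have h6 := hmem i s' b (by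
              rw [hs', emb_X hX, base_nonconst h4])
            have h7 := hne i j h
            rcases h6 with h6 | h6 <;> rcases h5 with h5 | h5
            · exact absurd (h6.trans h5.symm) h7
            · exact ⟨h6, h5⟩
            · subst h6
              subst h5
              exact absurd h' (hdir _ _ h)
            · exact absurd (h6.trans h5.symm) h7
          · exact absurd (by rw [hs', emb_Y hX hY hXY (hchi _ _ h)]) (hb s')
          · exact hoth b h1 h2
        · exact hoth a h1 h2
      obtain ⟨rfl, rfl⟩ := hkl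
      congr 1
      funext a
      exact hinj _ _ h (huu a)
  obtain ⟨e, he, he'⟩ := hf.embed' hm (X := Tok m A S U I) (fun w =>
    if hw : ∃ (x : I × I × (Fin m → U)), dir x.1 x.2.1 ∧ Injective x.2.2 ∧
      ∀ a, emb a₀ X Y α x.1 x.2.1 (x.2.2 a) = w a
    then γ hw.choose.1 hw.choose.2.1 hw.choose.2.2 else a₀)
  refine ⟨fun i s => e (base a₀ X Y α i s), fun i j u => e (emb a₀ X Y α i j u), fun i j h =>
    ⟨he.comp (hinj i j h), fun s => ?_, fun s => ?_, fun u hu => ?_⟩⟩
  · simp only
    rw [emb_X hX]
  · simp only
    rw [emb_Y hX hY hXY (hchi _ _ h)]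
  · show f (fun a => e (emb a₀ X Y α i j (u a))) = _
    rw [he' (fun a => emb a₀ X Y α i j (u a)) ((hinj i j h).comp hu)]
    have hw : ∃ (x : I × I × (Fin m → U)), dir x.1 x.2.1 ∧ Injective x.2.2 ∧
      ∀ a, emb a₀ X Y α x.1 x.2.1 (x.2.2 a) = emb a₀ X Y α i j (u a) := ⟨(i, j, u), h, hu, fun a => rfl⟩
    rw [dif_pos hw]
    exact hC _ _ _ _ _ _ hw.choose_spec.1 h hw.choose_spec.2.1 hu hw.choose_spec.2.2

end Pool.Agent.E8helper92.BP
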