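import Pool.Agent.E8helper92.BP.Single

/-!
# Correctness of the reduction
-/

set_option autoImplicit false

namespace Pool.Agent.E8helper92.BP

open Function Pool.Agent.W994.AR Pool.Agent.NPC
open Pool.Agent.H593R3.FBC (Inst IsInst CSP Rels)

section tuples

theorem tup_eq (m L : ℕ) (B : ℕ → ℕ) :
    tup m L B = List.ofFn (fun y : Fin L => B (y / m) * m + y % m) := by
  unfold tup
  apply List.ext_getElem
  · simp
  · intro k h1 h2
    simp

theorem tup_length (m L : ℕ) (B : ℕ → ℕ) : (tup m L B).length = L := by simp [tup]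

theorem blk_tup {m Nb : ℕ} (hm : 0 < m) (B e : ℕ → ℕ) (j : Fin Nb) :
    blk (m := m) (fun y : Fin (Nb * m) => e (B (y / m) * m + y % m)) j =
      fun a : Fin m => e (B j * m + a) := by
  funext a
  unfold blk
  have h1 : ((finProdFinEquiv (j, a) : Fin (Nb * m)) : ℕ) = a + m * j := rfl
  simp only
  rw [h1, Nat.add_mul_div_left _ _ hm, Nat.div_eq_of_lt a.2, Nat.add_mul_mod_self_left,
    Nat.mod_eq_of_lt a.2, Nat.zero_add]

theorem divmod_unique {m a b c d : ℕ} (hm : 0 < m) (hb : b < m) (hd : d < m)
    (h : a * m + b = c * m + d) : a = c ∧ b = d := by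
  have h1 : (a * m + b) / m = a := by
    rw [Nat.add_comm, Nat.add_mul_div_right _ _ hm, Nat.div_eq_of_lt hb, Nat.zero_add]
  have h2 : (c * m + d) / m = c := by
    rw [Nat.add_comm, Nat.add_mul_div_right _ _ hm, Nat.div_eq_of_lt hd, Nat.zero_add]
  have h3 : a = c := by rw [← h1, ← h2, h]
  subst h3
  exact ⟨rfl, by omega⟩

theorem tup_injective {m Nb : ℕ} (hm : 0 < m) {B : ℕ → ℕ}
    (hB : ∀ b < Nb, ∀ b' < Nb, B b = B b' → b = b') :
    Injective (fun y : Fin (Nb * m) => B (y / m) * m + y % m) := by
  intro y y' h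
  simp only at h
  obtain ⟨h1, h2⟩ := divmod_unique hm (Nat.mod_lt _ hm) (Nat.mod_lt _ hm) h
  have h3 : (y : ℕ) / m = y' / m := hB _ ((Nat.div_lt_iff_lt_mul hm).2 y.2) _
    ((Nat.div_lt_iff_lt_mul hm).2 y'.2) h1
  apply Fin.ext
  rw [← Nat.div_add_mod (y : ℕ) m, ← Nat.div_add_mod (y' : ℕ) m, h2, h3]

end tuples

variable {m n : ℕ} {A : Type} {ar : Fin n → ℕ} {Nb : ℕ}

open Classical in
/-- the symbols of empty relations -/
noncomputable def badL (𝔸 : Str (Fin n) ar A) : List ℕ :=
  ((List.finRange n).filter (fun i => ¬ (𝔸 i).Nonempty)).map Fin.val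

theorem mem_badL (𝔸 : Str (Fin n) ar A) (i : Fin n) : i.1 ∈ badL 𝔸 ↔ ¬ (𝔸 i).Nonempty := by
  classical
  unfold badL
  simp only [List.mem_map, List.mem_filter, List.mem_finRange, true_and, decide_eq_true_eq]
  constructor
  · rintro ⟨j, hj, hji⟩
    obtain rfl := Fin.ext hji
    exact hj
  · intro h
    exact ⟨i, h, rfl⟩

/-- the table of the block numbers -/
def tabL (ε : Blk ar ≃ Fin Nb) : List (List ℕ) :=
  List.ofFn (fun i => List.ofFn (fun j => (ε (Sum.inr ⟨i, j⟩)).1))

theorem tabL_get (ε : Blk ar ≃ Fin Nb) (i : Fin n) (j : Fin (ar i)) :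
    ((tabL ε).getD i.1 []).getD j.1 0 = (ε (Sum.inr ⟨i, j⟩)).1 := by
  unfold tabL
  simp [List.getD_eq_getElem?_getD]

/-- the reduction for the structure `𝔸` -/
noncomputable def redOf (m : ℕ) (ε : Blk ar ≃ Fin Nb) (𝔸 : Str (Fin n) ar A) : Inst → Inst :=
  red (List.ofFn ar) (badL 𝔸) m Nb (Finset.univ.sup ar + 1) (ε (Sum.inl 0)).1 (ε (Sum.inl 1)).1
    (tabL ε)

theorem poly_redOf (m : ℕ) (ε : Blk ar ≃ Fin Nb) (𝔸 : Str (Fin n) ar A) :
    Poly (redOf m ε 𝔸) := poly_red _ _ _ _ _ _ _ _

theorem exists_ofFn {N : ℕ} {l : List ℕ} (h : l.length = N) : ∃ v : Fin N → ℕ, l = List.ofFn v := by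
  subst h
  exact ⟨l.get, by simp⟩

theorem bound1 {N T K Nb t c b : ℕ} (ht : t < T) (hc : c < K) (hb : b < Nb) :
    N + (t * K + c) * Nb + b < N + T * (K * Nb) := by
  have h1 : (t * K + c + 1) * Nb ≤ (T * K) * Nb := by
    apply Nat.mul_le_mul_right
    calc t * K + c + 1 ≤ t * K + K := by omega
      _ = (t + 1) * K := by ring
      _ ≤ T * K := Nat.mul_le_mul_right _ ht
  have h2 : (t * K + c + 1) * Nb = (t * K + c) * Nb + Nb := by ring
  have h3 : T * K * Nb = T * (K * Nb) := by ring
  omega

theorem mainB_eq {K N t b : ℕ} : mainB Nb K N t b = N + (t * K + 0) * Nb + b := by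
  unfold mainB
  ring

section val

variable (ε : Blk ar ≃ Fin Nb) (h : ℕ → A) (I : Inst) (a₀ : A) (aa : ∀ i, Fin (ar i) → A) (K : ℕ)
  (hNb : 0 < Nb)

/-- the values of the new blocks -/
def blkval (t c : ℕ) : Blk ar → A
  | Sum.inl _ => a₀
  | Sum.inr ⟨i, j⟩ => if c = 0 then (match I.2[t]? with
    | some p => if p.1 = i.1 then h (p.2.getD j.1 0) else aa i j
    | none => aa i j) else aa i j

/-- the values of all blocks -/
def valB (B : ℕ) : A :=
  if B < I.1.length then h B
  else blkval h I a₀ aa ((B - I.1.length) / Nb / K) ((B - I.1.length) / Nb % K)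
    (ε.symm ⟨(B - I.1.length) % Nb, Nat.mod_lt _ hNb⟩)

theorem valB_old {B : ℕ} (hB : B < I.1.length) : valB ε h I a₀ aa K hNb B = h B := if_pos hB

theorem valB_new {t c : ℕ} (hc : c < K) (b : Blk ar) :
    valB ε h I a₀ aa K hNb (I.1.length + (t * K + c) * Nb + (ε b).1) = blkval h I a₀ aa t c b := by
  unfold valB
  rw [if_neg (by omega)]
  have h1 : I.1.length + (t * K + c) * Nb + (ε b).1 - I.1.length = (t * K + c) * Nb + (ε b).1 := by
    omega
  have h2 : ((t * K + c) * Nb + (ε b).1) / Nb = t * K + c := by
    rw [Nat.add_comm, Nat.add_mul_div_right _ _ hNb, Nat.div_eq_of_lt (ε b).2, Nat.zero_add]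
  have h3 : ((t * K + c) * Nb + (ε b).1) % Nb = (ε b).1 := by
    rw [Nat.add_comm, Nat.add_mul_mod_self_right, Nat.mod_eq_of_lt (ε b).2]
  have h4 : (t * K + c) / K = t := by
    rw [Nat.add_comm, Nat.add_mul_div_right _ _ (by omega), Nat.div_eq_of_lt hc, Nat.zero_add]
  have h5 : (t * K + c) % K = c := by
    rw [Nat.add_comm, Nat.add_mul_mod_self_right, Nat.mod_eq_of_lt hc]
  simp only [h1, h2, h3, h4, h5]
  congr 1
  exact ε.symm_apply_apply b

end val

theorem csp_red (hm : 0 < m) {f : (Fin m → ℕ) → A} (hf : Ext f) (𝔸 : Str (Fin n) ar A)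
    (ε : Blk ar ≃ Fin Nb) (I : Inst) :
    CSPOf 𝔸 I ↔ CSPOf (fun _ : Fin 1 => single ε f 𝔸) (redOf m ε 𝔸 I) := by
  classical
  have ha0 : Nonempty A := ⟨f (fun _ => 0)⟩
  have hNb : 0 < Nb := lt_of_le_of_lt (Nat.zero_le _) (ε (Sum.inl 0)).2
  rw [cspOf_iff, cspOf_iff]
  set K := Finset.univ.sup ar + 1 with hK
  have hKar : ∀ i, ar i < K := fun i => Nat.lt_succ_of_le (Finset.le_sup (f := ar) (Finset.mem_univ i))
  have hε01 : (ε (Sum.inl 0)).1 ≠ (ε (Sum.inl 1)).1 := by
    intro h
    have := ε.injective (Fin.ext h)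
    simp at this
  have hεi : ∀ (i : Fin n) (j : Fin (ar i)) (x : Fin 2),
      (ε (Sum.inr ⟨i, j⟩)).1 ≠ (ε (Sum.inl x)).1 := by
    intro i j x h
    have := ε.injective (Fin.ext h)
    simp at this
  by_cases hok : okI (List.ofFn ar) (badL 𝔸) I = true
  swap
  · -- ill formed instances, or empty relations
    have hred : redOf m ε 𝔸 I = ([], [(1, [])]) := by
      unfold redOf red
      rw [if_neg hok]
    rw [hred]
    constructor
    · rintro ⟨hI, h, hh⟩
      exfalso
      apply hok
      rw [okI_iff]
      refine ⟨hI, fun p hp hbad => ?_⟩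
      have h1 := (hI p hp).1
      rw [List.getElem?_ofFn] at h1
      split_ifs at h1 with hi
      simp only [Option.some.injEq] at h1
      obtain ⟨v, hv⟩ := exists_ofFn h1.symm
      have h2 := (mem_badL 𝔸 ⟨p.1, hi⟩).1 hbad
      apply h2
      refine ⟨_, hh ⟨p.1, hi⟩ v ?_⟩
      rw [← hv]
      exact hp
    · rintro ⟨hI, -⟩
      have h1 := (hI (1, []) (by simp)).1
      simp at h1
  · have hred : redOf m ε 𝔸 I = (List.replicate ((I.1.length + I.2.length * (K * Nb)) * m) (),
        newC m Nb K (ε (Sum.inl 0)).1 (ε (Sum.inl 1)).1 (tabL ε) I) := by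
      unfold redOf red
      rw [if_pos hok]
    rw [hred]
    rw [okI_iff] at hok
    obtain ⟨hI, hbad⟩ := hok
    -- the constraints of the old instance
    have hold : ∀ t p, I.2[t]? = some p → t < I.2.length ∧ ∃ (i : Fin n) (v : Fin (ar i) → ℕ),
        p = (i.1, List.ofFn v) ∧ (𝔸 i).Nonempty ∧ (∀ j, v j < I.1.length) := by
      intro t p htp
      have ht : t < I.2.length := by
        rw [List.getElem?_eq_some_iff] at htp
        exact htp.1
      have hp : p ∈ I.2 := List.mem_of_getElem? htp
      have h1 := (hI p hp).1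
      rw [List.getElem?_ofFn] at h1
      split_ifs at h1 with hi
      simp only [Option.some.injEq] at h1
      obtain ⟨v, hv⟩ := exists_ofFn h1.symm
      refine ⟨ht, ⟨p.1, hi⟩, v, Prod.ext rfl hv, ?_, ?_⟩
      · have h2 := (mem_badL 𝔸 ⟨p.1, hi⟩).not.1 (hbad p hp)
        exact not_not.1 h2
      · intro j
        apply (hI p hp).2
        rw [hv, List.mem_ofFn]
        exact ⟨j, rfl⟩
    constructor
    · rintro ⟨-, h, hh⟩
      have haa : ∀ i, ∃ a : Fin (ar i) → A, (𝔸 i).Nonempty → a ∈ 𝔸 i := by
        intro i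
        by_cases hi : (𝔸 i).Nonempty
        · exact ⟨hi.some, fun _ => hi.some_mem⟩
        · exact ⟨fun _ => ha0.some, fun h => absurd h hi⟩
      choose aa haa using haa
      set val := valB ε h I ha0.some aa K hNb with hval
      have hvn : ∀ (t c : ℕ) (b : Blk ar), c < K →
          val (I.1.length + (t * K + c) * Nb + (ε b).1) = blkval h I ha0.some aa t c b :=
        fun t c b hc => valB_new ε h I ha0.some aa K hNb hc b
      obtain ⟨e, he, he'⟩ := hf.embed hm (fun x => val (x ⟨0, hm⟩ / m))
      have hblk : ∀ B : ℕ, f (fun a : Fin m => e (B * m + a)) = val B := by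
        intro B
        rw [he' (fun a : Fin m => B * m + a) (by
          intro a b hab
          simp only at hab
          exact Fin.ext (by omega))]
        simp only [Nat.add_zero]
        rw [Nat.mul_div_cancel _ hm]
      -- membership in the relation
      have hmem : ∀ B : ℕ → ℕ, (∀ b < Nb, ∀ b' < Nb, B b = B b' → b = b') →
          (∀ i, (𝔸 i).Nonempty → (fun j => val (B (ε (Sum.inr ⟨i, j⟩)))) ∈ 𝔸 i) →
          val (B (ε (Sum.inl 0))) = val (B (ε (Sum.inl 1))) →
          (fun y : Fin (Nb * m) => e (B (y / m) * m + y % m)) ∈ single ε f 𝔸 := by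
        intro B hB h1 h2
        refine ⟨he.comp (tup_injective hm hB), ?_, ?_⟩
        · intro i hi
          simp only [blk_tup hm, hblk]
          exact h1 i hi
        · simp only [blk_tup hm, hblk]
          exact h2
      constructor
      · intro p hp
        obtain ⟨t, i, l, htl, hp⟩ := mem_newC.1 hp
        obtain ⟨ht, i', v, hv, hne, hlt⟩ := hold t _ htl
        simp only [Prod.mk.injEq] at hv
        obtain ⟨rfl, rfl⟩ := hv
        have hlen : ∀ B : ℕ → ℕ, (∀ b < Nb, B b < I.1.length + I.2.length * (K * Nb)) →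
            ∀ a ∈ tup m (Nb * m) B, a < (I.1.length + I.2.length * (K * Nb)) * m := by
          intro B hB a ha
          unfold tup at ha
          rw [List.mem_map] at ha
          obtain ⟨y, hy, rfl⟩ := ha
          rw [List.mem_range] at hy
          have h1 := hB (y / m) ((Nat.div_lt_iff_lt_mul hm).2 hy)
          have h2 := Nat.mod_lt y hm
          have h3 : (B (y / m) + 1) * m ≤ (I.1.length + I.2.length * (K * Nb)) * m :=
            Nat.mul_le_mul_right m h1
          have h4 : (B (y / m) + 1) * m = B (y / m) * m + m := by ring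
          omega
        have hbK : ∀ c b, c < K → b < Nb →
            I.1.length + (t * K + c) * Nb + b < I.1.length + I.2.length * (K * Nb) :=
          fun c b hc hb => bound1 ht hc hb
        rcases hp with rfl | ⟨j, x, hjx, rfl⟩
        · refine ⟨?_, ?_⟩
          · simp [tup_length]
          · simp only [List.length_replicate]
            apply hlen
            intro b hb
            rw [mainB_eq]
            exact hbK 0 b (by omega) hb
        · have hj : j < ar i' := by
            have := (List.getElem?_eq_some_iff.1 hjx).1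
            simpa using this
          have hx : x = v ⟨j, hj⟩ := by
            have := (List.getElem?_eq_some_iff.1 hjx).2
            simpa using this.symm
          refine ⟨?_, ?_⟩
          · simp [tup_length]
          · simp only [List.length_replicate]
            apply hlen
            intro b hb
            unfold linkB
            split_ifs with h1 h2
            · rw [hx]
              exact lt_of_lt_of_le (hlt _) (Nat.le_add_right _ _)
            · rw [tabL_get ε i' ⟨j, hj⟩]
              have := hbK 0 (ε (Sum.inr ⟨i', ⟨j, hj⟩⟩)).1 (by omega) (Fin.isLt _)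
              simpa using this
            · exact hbK (j + 1) b (by have := hKar i'; omega) hb
      · refine ⟨e, ?_⟩
        intro z w hw
        obtain ⟨t, i, l, htl, hp⟩ := mem_newC.1 hw
        obtain ⟨ht, i', v, hv, hne, hlt⟩ := hold t _ htl
        simp only [Prod.mk.injEq] at hv
        obtain ⟨rfl, rfl⟩ := hv
        have hold' : (fun j => h (v j)) ∈ 𝔸 i' := hh i' v (List.mem_of_getElem? htl)
        rcases hp with hp | ⟨j, x, hjx, hp⟩
        · simp only [Prod.mk.injEq] at hp
          rw [tup_eq] at hp
          have hwe := List.ofFn_injective hp.2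
          rw [hwe]
          apply hmem (mainB Nb K I.1.length t)
          · intro b _ b' _ hb
            unfold mainB at hb
            omega
          · intro i hi
            have h1 : (fun j => val (mainB Nb K I.1.length t (ε (Sum.inr ⟨i, j⟩)).1)) =
                fun j => blkval h I ha0.some aa t 0 (Sum.inr ⟨i, j⟩) := by
              funext j
              rw [mainB_eq]
              exact hvn _ _ _ (by omega)
            rw [h1]
            by_cases hii : i' = i
            · subst hii
              have h2 : (fun j => blkval h I ha0.some aa t 0 (Sum.inr ⟨i', j⟩)) =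
                  fun j => h (v j) := by
                funext j
                simp [blkval, htl, List.getD_eq_getElem?_getD]
              rw [h2]
              exact hold'
            · have h2 : (fun j => blkval h I ha0.some aa t 0 (Sum.inr ⟨i, j⟩)) = aa i := by
                funext j
                have h3 : i'.1 ≠ i.1 := fun h => hii (Fin.ext h)
                simp [blkval, htl, h3]
              rw [h2]
              exact haa i hi
          · rw [mainB_eq, mainB_eq]
            rw [hvn _ _ _ (by omega), hvn _ _ _ (by omega)]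
            rfl
        · have hj : j < ar i' := by
            have := (List.getElem?_eq_some_iff.1 hjx).1
            simpa using this
          have hx : x = v ⟨j, hj⟩ := by
            have := (List.getElem?_eq_some_iff.1 hjx).2
            simpa using this.symm
          simp only [Prod.mk.injEq] at hp
          rw [tup_eq] at hp
          have hwe := List.ofFn_injective hp.2
          rw [hwe]
          have hxlt : x < I.1.length := by rw [hx]; exact hlt _
          have htab := tabL_get ε i' ⟨j, hj⟩
          simp only at htab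
          have hlink : ∀ b, linkB Nb K (ε (Sum.inl 0)).1 (ε (Sum.inl 1)).1 (tabL ε) I.1.length t
              i'.1 j x b = if b = (ε (Sum.inl 0)).1 then x else if b = (ε (Sum.inl 1)).1 then
              I.1.length + t * K * Nb + (ε (Sum.inr ⟨i', ⟨j, hj⟩⟩)).1
              else I.1.length + (t * K + (j + 1)) * Nb + b := by
            intro b
            unfold linkB
            rw [htab]
          have hcmp : t * K * Nb + (ε (Sum.inr ⟨i', ⟨j, hj⟩⟩)).1 < (t * K + (j + 1)) * Nb := by
            have h1 := (ε (Sum.inr ⟨i', ⟨j, hj⟩⟩)).2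
            have h2 : (t * K + (j + 1)) * Nb = t * K * Nb + Nb + j * Nb := by ring
            omega
          apply hmem (linkB Nb K (ε (Sum.inl 0)).1 (ε (Sum.inl 1)).1 (tabL ε) I.1.length t i'.1 j x)
          · intro b _ b' _ hb
            rw [hlink, hlink] at hb
            split_ifs at hb <;> omega
          · intro i hi
            have h1 : (fun j' => val (linkB Nb K (ε (Sum.inl 0)).1 (ε (Sum.inl 1)).1 (tabL ε)
                I.1.length t i'.1 j x (ε (Sum.inr ⟨i, j'⟩)).1)) = aa i := by
              funext j'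
              rw [hlink, if_neg (hεi i j' 0), if_neg (hεi i j' 1)]
              rw [hvn _ _ _ (by have := hKar i'; omega)]
              simp [blkval]
            rw [h1]
            exact haa i hi
          · rw [hlink, hlink, if_pos rfl, if_neg hε01.symm, if_pos rfl]
            rw [hval, valB_old ε h I ha0.some aa K hNb hxlt]
            have h1 := valB_new ε h I ha0.some aa K hNb (t := t) (c := 0) (by omega)
              (Sum.inr ⟨i', ⟨j, hj⟩⟩)
            rw [Nat.add_zero] at h1
            rw [h1]
            simp [blkval, htl, List.getD_eq_getElem?_getD, hx, hj]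
    · rintro ⟨-, e, he⟩
      refine ⟨hI, fun B => f (fun a : Fin m => e (B * m + a)), ?_⟩
      intro i v hv
      obtain ⟨t, ht⟩ := List.mem_iff_getElem?.1 hv
      obtain ⟨-, i', v', hv', hne, -⟩ := hold t _ ht
      simp only [Prod.mk.injEq] at hv'
      obtain rfl : i = i' := Fin.ext hv'.1
      have hm1 := he 0 (fun y : Fin (Nb * m) => mainB Nb K I.1.length t (y / m) * m + y % m) (by
        apply mem_newC.2
        refine ⟨t, i.1, List.ofFn v, ht, Or.inl ?_⟩
        rw [tup_eq]
        rfl)
      have hm2 := hm1.2.1 i hne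
      simp only [blk_tup hm] at hm2
      convert hm2 using 1
      funext j
      have hl := he 0 (fun y : Fin (Nb * m) => linkB Nb K (ε (Sum.inl 0)).1 (ε (Sum.inl 1)).1 (tabL ε)
        I.1.length t i.1 j.1 (v j) (y / m) * m + y % m) (by
        apply mem_newC.2
        refine ⟨t, i.1, List.ofFn v, ht, Or.inr ⟨j.1, v j, ?_, ?_⟩⟩
        · simp
        · rw [tup_eq]
          rfl)
      have hl2 := hl.2.2
      simp only [blk_tup hm] at hl2
      have h1 : linkB Nb K (ε (Sum.inl 0)).1 (ε (Sum.inl 1)).1 (tabL ε) I.1.length t i.1 j.1 (v j)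
          (ε (Sum.inl 0)).1 = v j := by
        unfold linkB
        rw [if_pos rfl]
      have h2 : linkB Nb K (ε (Sum.inl 0)).1 (ε (Sum.inl 1)).1 (tabL ε) I.1.length t i.1 j.1 (v j)
          (ε (Sum.inl 1)).1 = mainB Nb K I.1.length t (ε (Sum.inr ⟨i, j⟩)).1 := by
        unfold linkB mainB
        rw [if_neg hε01.symm, if_pos rfl, tabL_get ε i j]
      rw [h1, h2] at hl2
      exact hl2

end Pool.Agent.E8helper92.BP
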