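import Pool.Agent.E8helper92.BP.LiftFB
import Pool.Agent.E8helper92.BP.PPK
import Pool.Agent.E8helper92.BP.Csp

/-!
# The template with a single relation
-/

set_option autoImplicit false

namespace Pool.Agent.E8helper92.BP

open Function Pool.Agent.W994.AR Pool.Agent.NPC
open Pool.Agent.H593R3.FBC (Inst IsInst CSP Rels)

variable {m n : ℕ} {A : Type} {ar : Fin n → ℕ}

/-- the blocks of the relation -/
abbrev Blk (ar : Fin n → ℕ) : Type := Fin 2 ⊕ (Σ i : Fin n, Fin (ar i))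

/-- The single relation: injective tuples whose blocks satisfy all nonempty relations of `𝔸`, and whose
first two blocks have the same value. -/
def single {Nb : ℕ} (ε : Blk ar ≃ Fin Nb) (f : (Fin m → ℕ) → A) (𝔸 : Str (Fin n) ar A) :
    Set (Fin (Nb * m) → ℕ) :=
  {w | Injective w ∧ (∀ i, (𝔸 i).Nonempty → (fun j => f (blk w (ε (Sum.inr ⟨i, j⟩)))) ∈ 𝔸 i) ∧
    f (blk w (ε (Sum.inl 0))) = f (blk w (ε (Sum.inl 1)))}

variable {Nb : ℕ} {ε : Blk ar ≃ Fin Nb} {f : (Fin m → ℕ) → A} {𝔸 : Str (Fin n) ar A}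

theorem blk_injective {V : Type} {w : Fin (Nb * m) → V} (hw : Injective w) (j : Fin Nb) :
    Injective (blk w j) := by
  intro a b hab
  have h1 := finProdFinEquiv.injective (hw hab)
  exact congrArg Prod.snd h1

theorem single_blockForm : BlockForm f 𝔸 (single ε f 𝔸) := by
  refine ⟨Fin Nb, inferInstance, fun j a => finProdFinEquiv (j, a),
    {z | (∀ i ∈ {i | (𝔸 i).Nonempty}, z ∈ {z | (z ∘ fun j => ε (Sum.inr ⟨i, j⟩)) ∈ 𝔸 i})} ∩
      {z | z (ε (Sum.inl 0)) = z (ε (Sum.inl 1))}, ?_, ?_, ?_⟩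
  · intro j a b hab
    exact congrArg Prod.snd (finProdFinEquiv.injective hab)
  · exact (PP.iInter _ (Set.toFinite _) _ (fun i _ => PP.rel i _)).inter (PP.eq _ _)
  · intro w
    exact Iff.rfl

theorem single_invar {σ : Type} {arB : σ → ℕ} {𝔹 : Str σ arB A} {s : Fin n → σ}
    {ε : Blk (fun i => arB (s i)) ≃ Fin Nb} :
    Invar (autGroup (lift f 𝔹)) (single ε f (fun i => 𝔹 (s i))) := by
  rintro g hg w ⟨h1, h2, h3⟩
  have hgi : Injective (fun x => g (w x)) := g.injective.comp h1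
  refine ⟨hgi, ?_, ?_⟩
  · intro i hi
    have h4 := h2 i hi
    have h5 : mk (fun j => blk w (ε (Sum.inr ⟨i, j⟩))) ∈ liftR f (𝔹 (s i)) := by
      rw [rel_mem]
      exact ⟨fun j => blk_injective h1 _, h4⟩
    have h6 : mk (fun j => blk (fun x => g (w x)) (ε (Sum.inr ⟨i, j⟩))) ∈ liftR f (𝔹 (s i)) :=
      (hg (some (s i)) (mk (fun j => blk w (ε (Sum.inr ⟨i, j⟩))))).1 h5
    rw [rel_mem] at h6
    exact h6.2
  · have h5 : mk ![blk w (ε (Sum.inl 0)), blk w (ε (Sum.inl 1))] ∈ liftE f := by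
      rw [pair_mem]
      exact ⟨blk_injective h1 _, blk_injective h1 _, h3⟩
    have h6 := (hg none (mk ![blk w (ε (Sum.inl 0)), blk w (ε (Sum.inl 1))])).1 h5
    have h7 : mk ![blk (fun x => g (w x)) (ε (Sum.inl 0)), blk (fun x => g (w x)) (ε (Sum.inl 1))] ∈
        liftE f := by
      have h8 := mk_pair (blk w (ε (Sum.inl 0))) (blk w (ε (Sum.inl 1))) g
      have h9 : (fun x => g (mk ![blk w (ε (Sum.inl 0)), blk w (ε (Sum.inl 1))] x)) ∈ liftE f := h6
      rw [h8] at h9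
      exact h9
    rw [pair_mem] at h7
    exact h7.2.2

/-- injective operations of every arity which preserve the values -/
theorem exists_pol (hm : 0 < m) (hf : Ext f) {d : ℕ} (hd : 0 < d) :
    ∃ h : (Fin d → ℕ) → ℕ, Injective h ∧ ∀ w : Fin m → Fin d → ℕ, Injective w →
      f (fun a => h (w a)) = f (fun a => w a ⟨0, hd⟩) :=
  hf.embed' hm (X := Fin d → ℕ) (fun w => f (fun a => w a ⟨0, hd⟩))

theorem single_pol {d : ℕ} (hd : 0 < d) {h : (Fin d → ℕ) → ℕ} (hh : Injective h)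
    (hfh : ∀ w : Fin m → Fin d → ℕ, Injective w → f (fun a => h (w a)) = f (fun a => w a ⟨0, hd⟩))
    (v : Fin d → Fin (Nb * m) → ℕ) (hv : ∀ a, v a ∈ single ε f 𝔸) :
    (fun j => h (fun a => v a j)) ∈ single ε f 𝔸 := by
  obtain ⟨h1, h2, h3⟩ := hv ⟨0, hd⟩
  have hinj : Injective (fun j => fun a => v a j) := by
    intro j j' hj
    exact h1 (congrFun hj ⟨0, hd⟩)
  have key : ∀ j, f (blk (fun j => h (fun a => v a j)) j) = f (blk (v ⟨0, hd⟩) j) := by
    intro j
    exact hfh (fun b a => v a (finProdFinEquiv (j, b))) (by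
      intro b b' hb
      have := finProdFinEquiv.injective (hinj hb)
      exact congrArg Prod.snd this)
  refine ⟨hh.comp hinj, ?_, ?_⟩
  · intro i hi
    simp only [key]
    exact h2 i hi
  · simp only [key]
    exact h3

theorem lift_pol {σ : Type} {arB : σ → ℕ} {𝔹 : Str σ arB A} {d : ℕ} (hd : 0 < d)
    {h : (Fin d → ℕ) → ℕ} (hh : Injective h)
    (hfh : ∀ w : Fin m → Fin d → ℕ, Injective w → f (fun a => h (w a)) = f (fun a => w a ⟨0, hd⟩)) :
    IsPol (lift f 𝔹) h := by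
  have key : ∀ {r : ℕ} (v : Fin d → Fin (r * m) → ℕ), (∀ j, Injective (blk (v ⟨0, hd⟩) j)) →
      (∀ j, Injective (blk (fun j => h (fun a => v a j)) j)) ∧
      ∀ j, f (blk (fun j => h (fun a => v a j)) j) = f (blk (v ⟨0, hd⟩) j) := by
    intro r v hv
    have h1 : ∀ j, Injective (fun (b : Fin m) (a : Fin d) => v a (finProdFinEquiv (j, b))) := by
      intro j b b' hb
      exact hv j (congrFun hb ⟨0, hd⟩)
    refine ⟨fun j => hh.comp (h1 j), fun j => ?_⟩
    exact hfh (fun b a => v a (finProdFinEquiv (j, b))) (h1 j)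
  have c0 : ∀ v : Fin d → Fin (2 * m) → ℕ, (∀ a, v a ∈ liftE f) →
      (fun j => h (fun a => v a j)) ∈ liftE f := by
    intro v hv
    obtain ⟨h1, h2⟩ := hv ⟨0, hd⟩
    obtain ⟨h3, h4⟩ := key v h1
    refine ⟨h3, ?_⟩
    rw [h4, h4]
    exact h2
  have c1 : ∀ i, ∀ v : Fin d → Fin (arB i * m) → ℕ, (∀ a, v a ∈ liftR f (𝔹 i)) →
      (fun j => h (fun a => v a j)) ∈ liftR f (𝔹 i) := by
    intro i v hv
    obtain ⟨h1, h2⟩ := hv ⟨0, hd⟩
    obtain ⟨h3, h4⟩ := key v h1
    refine ⟨h3, ?_⟩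
    simp only [h4]
    exact h2
  rintro (_ | i) v hv
  · exact c0 v hv
  · exact c1 i v hv

/-- every homomorphism from a countable structure can be made injective -/
theorem single_injective_hom (hm : 0 < m) (hf : Ext f) {X : Type} [Countable X]
    (Q : Set (Fin (Nb * m) → X)) (φ : X → ℕ) (hφ : ∀ w ∈ Q, (fun j => φ (w j)) ∈ single ε f 𝔸) :
    ∃ e : X → ℕ, Injective e ∧ ∀ w ∈ Q, (fun j => e (w j)) ∈ single ε f 𝔸 := by
  obtain ⟨e, he, he'⟩ := hf.embed' hm (X := X) (fun x => f (fun a => φ (x a)))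
  refine ⟨e, he, fun w hw => ?_⟩
  obtain ⟨h1, h2, h3⟩ := hφ w hw
  have hwi : Injective w := fun a b hab => h1 (congrArg φ hab)
  have key : ∀ j, f (blk (fun j => e (w j)) j) = f (blk (fun j => φ (w j)) j) := fun j =>
    he' (blk w j) (blk_injective hwi j)
  refine ⟨he.comp hwi, ?_, ?_⟩
  · intro i hi
    simp only [key]
    exact h2 i hi
  · simp only [key]
    exact h3

end Pool.Agent.E8helper92.BP
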